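import Pool.Agent.Helper91.SV.K0P
import Pool.Agent.Helper46.SV.KL1a
import Pool.Agent.Helper94.SV.KFrame

/-!
# The exceptional triples in groups without section `P128`

`HKE` of the frame: if `w_a = w_b = 1` and `w_c = [a, b]`, then `[a, b]` commutes with all elements of `E`.
-/

set_option autoImplicit false

open Subgroup

namespace Pool.Agent.Helper91.SV

open Pool.Agent.Helper46.SV (kk cj ww omg commute_iff_cj dl_of)
open Pool.Agent.Helper46.SV.TE (Law DL ek_comm ww_comm_self ej ec ww_symm)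
open Pool.Agent.Helper46.SV.RK (L1aP l1aP)
open Pool.Agent.Helper94.SV.Frame (DLaw MaxLaw)
open Pool.Agent.Helper94.SV.K6 (NoP128)
open Pool.Agent.Helper94.SV.TL (law_of Closed TLaw HKE)
open Pool.Agent.Helper89.SV (closed_of_path)

universe u

/-- `u` commutes with all elements of `E` -/
theorem comm_allP {G : Type u} [Group G] (hS : NoP128 G) {E : Set G} (hE : DLaw E) (hC : Closed E)
    (hL : L1aP E) {a b c : G} (ha : a ∈ E) (hb : b ∈ E) (hc : c ∈ E) (e1 : ww a b c = 1)
    (e2 : ww b c a = 1) (e3 : ww c a b = kk a b) : ∀ d ∈ E, Commute (kk a b) d := by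
  have hD := dl_of hE
  have hlaw := law_of hE hC
  have huc : Commute (kk a b) c := by rw [← e3]; exact ww_comm_self hlaw ha hc hb
  have h1 : ∀ e ∈ E, Commute (kk a b) (cj a e) := fun e he =>
    hL a ha b hb c hc _ (ej hD ha he) e1 e2 e3 (ec hD ha he)
  have h2 : ∀ e ∈ E, Commute (kk a b) (cj b e) := by
    intro e he
    have i1 : ww b a c = 1 := by rw [ww_symm hlaw ha hb hc]; exact e2
    have i2 : ww a c b = 1 := by rw [ww_symm hlaw hc ha hb]; exact e1
    have i3 : ww c b a = kk b a := by rw [ww_symm hlaw hb hc ha, e3, ek_comm hD ha hb]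
    have k := hL b hb a ha c hc _ (ej hD hb he) i1 i2 i3 (ec hD hb he)
    rwa [ek_comm hD hb ha] at k
  have h3 : ∀ e ∈ E, Commute c e → Commute (kk a b) e := by
    intro e he hce
    refine k0p hS hE hC ha hb hc he e1 e2 e3 (h1 e he) (h2 e he) ?_
    rw [(commute_iff_cj (hD.inv e he)).mp hce]
    exact huc
  intro d hd
  exact k0p hS hE hC ha hb hc hd e1 e2 e3 (h1 d hd) (h2 d hd) (h3 _ (ej hD hc hd) (ec hD hc hd))

/-- the exceptional triples of a closed set in a `P128`-free group -/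
theorem ke {G : Type u} [Group G] (hS : NoP128 G) {E : Set G} (hE : DLaw E) (hC : Closed E)
    (hT : TLaw E) {a b c : G} (ha : a ∈ E) (hb : b ∈ E) (hc : c ∈ E) (e1 : ww a b c = 1)
    (e2 : ww b c a = 1) (e3 : ww c a b = kk a b) : ∀ d ∈ E, Commute (kk a b) d :=
  comm_allP hS hE hC (l1aP hE (hS.path hE) hC hT) ha hb hc e1 e2 e3

theorem hke : HKE.{u} := fun _ _ hS _ _ hE hC hT _ ha _ hb _ hc h1 h2 h3 =>
  ke hS hE.law hC hT ha hb hc h1 h2 h3

end Pool.Agent.Helper91.SV
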