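import Pool.Agent.Helper91.SV.K0

/-!
# Step L1a: reduction to two leaves; the final step

`(a, b, c)` exceptional, `u = [a, b]`. If `d` commutes with `a` then `u` commutes with `d`, provided this holds in
the two cases `(a b' c)⁴ = 1` and `w(c;a,b') = 1`, where `b' = b^d`. Then `u` commutes with all of `E`.
-/

set_option autoImplicit false

open Subgroup

namespace Pool.Agent.Helper91.SV

open Pool.Agent.Helper46.SV (kk cj ww omg cc cj_sq cj_cj cj_mul cj_kk inv_of commute_iff_cj cj_comm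
  comm_of_kk kk_of_comm kk_eq law_of_noD16 dl_of mul_mem_of_max NoD16 Exc caseFE)
open Pool.Agent.Helper46.SV.TE (Law DL ec ek_left ek_right ek_sq ek_comm abc_four omg_comm ej ww_symm)
open Pool.Agent.Helper94.SV.Frame (DLaw MaxLaw)

universe u

section basic

variable {G : Type u} [Group G] {E : Set G}

/-- if `a` and `d` commute, then `b^a` and `b^d` commute -/
theorem cj_cj_comm (hS : NoD16 G) (hE : MaxLaw E) {a b d : G} (ha : a ∈ E) (hb : b ∈ E) (hd : d ∈ E)
    (had : Commute a d) : Commute (cj b a) (cj b d) := by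
  have hD := dl_of hE.law
  have hlaw := law_of_noD16 hS hD
  have h1 := hD.four _ (mul_mem_of_max hS hE ha hd had) b hb
  rw [abc_four hlaw ha hd hb] at h1
  have i1 : cj a d = a := (commute_iff_cj (hD.inv d hd)).mp had
  have i2 : cj d a = d := (commute_iff_cj (hD.inv a ha)).mp had.symm
  have h2 : ww a d b = 1 := by
    unfold ww
    rw [i1]
    exact kk_of_comm (hD.inv a ha) (hD.inv _ (ej hD ha hb)) (ec hD ha hb)
  have h3 : ww d b a = 1 := by
    unfold ww
    rw [i2]
    exact kk_of_comm (hD.inv _ (ej hD hd hb)) (hD.inv d hd) (ec hD hd hb).symm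
  unfold omg at h1
  rw [h2, h3, one_mul, one_mul] at h1
  exact comm_of_kk (hD.inv _ (ej hD hb ha)) (hD.inv _ (ej hD hb hd)) h1

/-- `u = [a, b]` commutes with `b^d` -/
theorem h2_ident (hS : NoD16 G) (hE : MaxLaw E) {a b d : G} (ha : a ∈ E) (hb : b ∈ E) (hd : d ∈ E)
    (had : Commute a d) : Commute (kk a b) (cj b d) := by
  have hD := dl_of hE.law
  rw [ek_comm hD ha hb, kk_eq b a]
  exact (ec hD hb hd).mul_left (cj_cj_comm hS hE ha hb hd had)

/-- K0 if `d` commutes with `a` -/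
theorem k0_of_c (hS : NoD16 G) (hE : MaxLaw E) {a b c d : G} (ha : a ∈ E) (hb : b ∈ E) (hc : c ∈ E)
    (hd : d ∈ E) (hexc : Exc a b c) (had : Commute a d) (h3 : Commute (kk a b) (cj c d)) :
    Commute (kk a b) d := by
  have hD := dl_of hE.law
  refine k0 hS hE.law ha hb hc hd hexc ?_ (h2_ident hS hE ha hb hd had) h3
  rw [(commute_iff_cj (hD.inv d hd)).mp had]
  exact ek_left hD ha hb

/-- the third leaf -/
theorem leaf3 (hS : NoD16 G) (hE : MaxLaw E) {a b c d : G} (ha : a ∈ E) (hb : b ∈ E) (hc : c ∈ E)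
    (hd : d ∈ E) (hexc : Exc a b c) (had : Commute a d) (h1 : ww a (cj b d) c = 1)
    (h2 : ww (cj b d) c a = 1) : Commute (kk a b) d := by
  have hD := dl_of hE.law
  have hdd := hD.inv d hd
  have hb' := ej hD hb hd
  have i1 : cj a d = a := (commute_iff_cj hdd).mp had
  have iu : cj (kk a b) d = kk a (cj b d) := by rw [cj_kk hdd, i1]
  have huc : Commute (kk a b) c := hexc.2.1
  refine k0_of_c hS hE ha hb hc hd hexc had ?_
  have he := ej hD hc hd
  refine k0 hS hE.law ha hb hc he hexc ?_ ?_ ?_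
  · have k1 : Commute (kk a (cj b d)) (cj a c) := by
      rw [kk_eq]
      exact (ec hD ha hc).mul_left (comm_of_kk (hD.inv _ (ej hD ha hb')) (hD.inv _ (ej hD ha hc)) h1)
    have k2 := cj_comm hdd k1
    rw [← iu, cj_cj hdd] at k2
    have k3 : cj a (cj c d) = cj (cj a c) d := by
      have k4 : cj a (cj c d) = cj (cj (cj a d) c) d := by simp only [cj, mul_assoc]
      rw [k4, i1]
    rw [k3]
    exact k2
  · have k1 : Commute (kk a (cj b d)) (cj (cj b d) c) := by
      rw [ek_comm hD ha hb', kk_eq]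
      exact (ec hD hb' hc).mul_left
        (comm_of_kk (hD.inv _ (ej hD hb' hc)) (hD.inv _ (ej hD hb' ha)) h2).symm
    have k2 := cj_comm hdd k1
    rw [← iu, cj_cj hdd] at k2
    have k3 : cj b (cj c d) = cj (cj (cj b d) c) d := by simp only [cj, mul_assoc]
    rw [k3]
    exact k2
  · rw [(commute_iff_cj (hD.inv _ he)).mp (ec hD hc hd)]
    exact huc

/-- L1a for the set `E` -/
def L1a (E : Set G) : Prop :=
  ∀ a ∈ E, ∀ b ∈ E, ∀ c ∈ E, ∀ d ∈ E, Exc a b c → Commute a d → Commute (kk a b) d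

/-- the first leaf -/
def Leaf1 (E : Set G) : Prop :=
  ∀ a ∈ E, ∀ b ∈ E, ∀ c ∈ E, ∀ d ∈ E, Exc a b c → Commute a d → omg a (cj b d) c = 1 →
    Commute (kk a b) (cj c d)

/-- the second leaf -/
def Leaf2 (E : Set G) : Prop :=
  ∀ a ∈ E, ∀ b ∈ E, ∀ c ∈ E, ∀ d ∈ E, Exc a b c → Commute a d → ww c a (cj b d) = 1 →
    Commute (kk a b) (cj c d)

theorem l1a_of_leaves (hS : NoD16 G) (hE : MaxLaw E) (hL1 : Leaf1 E) (hL2 : Leaf2 E) : L1a E := by
  intro a ha b hb c hc d hd hexc had
  have hD := dl_of hE.law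
  have hlaw := law_of_noD16 hS hD
  have hdd := hD.inv d hd
  have hb' := ej hD hb hd
  rcases caseFE hlaw hS ha hb' hc with h1 | h1 | ⟨h1, h2, -⟩ | ⟨-, -, -, h1⟩
  · exact k0_of_c hS hE ha hb hc hd hexc had (hL1 a ha b hb c hc d hd hexc had h1)
  · exact k0_of_c hS hE ha hb hc hd hexc had (hL2 a ha b hb c hc d hd hexc had h1)
  · exact leaf3 hS hE ha hb hc hd hexc had h1 h2
  · refine k0_of_c hS hE ha hb hc hd hexc had ?_
    have i1 : cj a d = a := (commute_iff_cj hdd).mp had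
    have iu : cj (kk a b) d = kk a (cj b d) := by rw [cj_kk hdd, i1]
    rw [← iu] at h1
    have k2 := cj_comm hdd h1
    rwa [cj_cj hdd] at k2

theorem exc_symm (hlaw : Law E) {a b c : G} (ha : a ∈ E) (hb : b ∈ E) (hc : c ∈ E) (hexc : Exc a b c) :
    Exc b a c := by
  obtain ⟨h1, h2, h3, h4⟩ := hexc
  have e : kk b a = kk a b := ek_comm hlaw.toDL hb ha
  refine ⟨?_, ?_, ?_, ?_⟩
  · rw [e, h1, abc_four hlaw ha hb hc, abc_four hlaw hb ha hc, omg_comm hlaw ha hb hc]
  · rw [e]
    exact h2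
  · rw [ww_symm hlaw ha hb hc]
    exact h4
  · rw [ww_symm hlaw hc ha hb]
    exact h3

/-- `u` commutes with all elements of `E` -/
theorem comm_all (hS : NoD16 G) (hE : DLaw E) (hL : L1a E) {a b c : G} (ha : a ∈ E) (hb : b ∈ E)
    (hc : c ∈ E) (hexc : Exc a b c) : ∀ d ∈ E, Commute (kk a b) d := by
  have hD := dl_of hE
  have hlaw := law_of_noD16 hS hD
  have hexc' := exc_symm hlaw ha hb hc hexc
  have h1 : ∀ e ∈ E, Commute (kk a b) (cj a e) := fun e he =>
    hL a ha b hb c hc _ (ej hD ha he) hexc (ec hD ha he)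
  have h2 : ∀ e ∈ E, Commute (kk a b) (cj b e) := by
    intro e he
    have k := hL b hb a ha c hc _ (ej hD hb he) hexc' (ec hD hb he)
    rwa [ek_comm hD hb ha] at k
  have h3 : ∀ e ∈ E, Commute c e → Commute (kk a b) e := by
    intro e he hce
    refine k0 hS hE ha hb hc he hexc (h1 e he) (h2 e he) ?_
    rw [(commute_iff_cj (hD.inv e he)).mp hce]
    exact hexc.2.1
  intro d hd
  exact k0 hS hE ha hb hc hd hexc (h1 d hd) (h2 d hd) (h3 _ (ej hD hc hd) (ec hD hc hd))

end basic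

end Pool.Agent.Helper91.SV
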