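import Pool.Agent.Helper46.SV.JClos

/-!
# Step K0: the relation for `(B r d)⁴`
-/

set_option autoImplicit false

open Subgroup

namespace Pool.Agent.Helper91.SV

open Pool.Agent.Helper46.SV (kk cj ww omg cc cj_sq cj_cj cj_mul cj_kk inv_of commute_iff_cj cj_comm
  comm_of_kk mem_three mem_norm pow_cases four_mem8 law_of_noD16 dl_of mul_mem_of_max NoD16 Exc p3_or_exc)
open Pool.Agent.Helper46.SV.TE (Law DL ek_left ek_right ek_sq ek_comm abc_four omg_sq omg_cyc omg_comm
  ww_comm_self ww_comm_left ww_comm_right ej)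
open Pool.Agent.Helper94.SV.Frame (DLaw MaxLaw exists_max)

universe u

section core

variable {G : Type u} [Group G]

/-- the elements `B`, `r`, `d`, with `u = r²`, `v = u^d` -/
structure Dat (B r d u v : G) : Prop where
  hB : B * B = 1
  hd : d * d = 1
  hr : r * r = u
  hu : u * u = 1
  hv : v = d * u * d
  uB : Commute u B
  vB : Commute v B
  vr : Commute v r
  sd : (B * r) ^ 4 = u
  bd : (B * d) ^ 4 = 1
  bg : (B * ((r * d)⁻¹ * d * (r * d))) ^ 4 = 1

variable {B r d u v : G} (D : Dat B r d u v)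
include D

theorem Dat.ur : Commute u r := by
  have h := D.hr
  show u * r = r * u
  rw [← h, mul_assoc]

theorem Dat.dvd : d * v * d = u := by
  rw [D.hv]
  simp only [mul_assoc, cc D.hd, D.hd, mul_one]

theorem Dat.vv : v * v = 1 := by
  rw [D.hv]
  simp only [mul_assoc, cc D.hd]
  rw [← mul_assoc u u, D.hu, one_mul, D.hd]

theorem Dat.dv : d * v = u * d := by
  rw [← D.dvd]
  simp only [mul_assoc, D.hd, mul_one]

theorem Dat.du : d * u = v * d := by
  rw [D.hv]
  simp only [mul_assoc, D.hd, mul_one]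

theorem Dat.uv : Commute u v := by
  have h : u = r * r := D.hr.symm
  rw [h]
  exact (D.vr.mul_right D.vr).symm

/-- the element `o = B^d` -/
theorem Dat.vo : Commute v (d * B * d) := by
  have h := D.uB.eq
  show v * (d * B * d) = d * B * d * v
  calc v * (d * B * d) = v * d * (B * d) := by simp only [mul_assoc]
    _ = d * (u * B) * d := by rw [← D.du]; simp only [mul_assoc]
    _ = d * B * (u * d) := by rw [h]; simp only [mul_assoc]
    _ = _ := by rw [← D.dv]; simp only [mul_assoc]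

theorem Dat.uo : Commute u (d * B * d) := by
  have h := D.vB.eq
  show u * (d * B * d) = d * B * d * u
  calc u * (d * B * d) = u * d * (B * d) := by simp only [mul_assoc]
    _ = d * (v * B) * d := by rw [← D.dv]; simp only [mul_assoc]
    _ = d * B * (v * d) := by rw [h]; simp only [mul_assoc]
    _ = _ := by rw [← D.du]; simp only [mul_assoc]

theorem Dat.oo : d * B * d * (d * B * d) = 1 := by
  simp only [mul_assoc, cc D.hd]
  rw [← mul_assoc B B, D.hB, one_mul, D.hd]

theorem Dat.rinv : r⁻¹ = r * u := by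
  apply inv_eq_of_mul_eq_one_right
  rw [← mul_assoc, D.hr, D.hu]

/-- `o` commutes with `B` -/
theorem Dat.oB : Commute B (d * B * d) :=
  Pool.Agent.Helper46.SV.TE.comm_cj D.hB D.hd D.bd

/-- `v` and `h = r d` -/
theorem Dat.hv' : (r * d) * u * (r * d)⁻¹ = v := by
  have h := D.vr.eq
  rw [mul_inv_eq_iff_eq_mul]
  calc r * d * u = r * (v * d) := by rw [mul_assoc, D.du]
    _ = v * (r * d) := by rw [← mul_assoc, ← h, mul_assoc]

theorem Dat.hu' : (r * d) * v * (r * d)⁻¹ = u := by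
  have h := D.ur.eq
  rw [mul_inv_eq_iff_eq_mul]
  calc r * d * v = r * (u * d) := by rw [mul_assoc, D.dv]
    _ = u * (r * d) := by rw [← mul_assoc, ← h, mul_assoc]

/-- `[o, e₁] = v` for `e₁ = B^h` -/
theorem Dat.a1 : (d * B * d * ((r * d)⁻¹ * B * (r * d))) ^ 2 = v := by
  have e1 : d * B * d * ((r * d)⁻¹ * B * (r * d)) = d * (u * (B * r) ^ 2) * d := by
    rw [mul_inv_rev, inv_of D.hd, D.rinv]
    have h1 := D.uB.eq
    calc d * B * d * (d * (r * u) * B * (r * d)) = d * B * (r * (u * B) * r) * d := by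
          simp only [mul_assoc, cc D.hd]
      _ = d * B * (r * (B * u) * r) * d := by rw [h1]
      _ = d * (B * r * B * (u * r)) * d := by simp only [mul_assoc]
      _ = d * (B * r * B * (r * u)) * d := by rw [D.ur.eq]
      _ = d * ((B * r) ^ 2 * u) * d := by simp only [pow_two, mul_assoc]
      _ = d * (u * (B * r) ^ 2) * d := by
        rw [((D.uB.mul_right D.ur).pow_right 2).eq]
  have e2 : (d * (u * (B * r) ^ 2) * d) ^ 2 = d * (u * (B * r) ^ 2) ^ 2 * d := by
    simp only [pow_two, mul_assoc, cc D.hd]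
  have e3 : (u * (B * r) ^ 2) ^ 2 = u := by
    rw [((D.uB.mul_right D.ur).pow_right 2).mul_pow, ← pow_mul, pow_two, D.hu, one_mul]
    exact D.sd
  rw [e1, e2, e3, D.hv]

/-- `[o, e₃] = (o r)⁴` for `e₃ = h B h⁻¹` -/
theorem Dat.a3 : (d * B * d * ((r * d) * B * (r * d)⁻¹)) ^ 2 = (d * B * d * r) ^ 4 := by
  have e1 : (r * d) * B * (r * d)⁻¹ = r * (d * B * d) * r⁻¹ := by
    rw [mul_inv_rev, inv_of D.hd]
    simp only [mul_assoc]
  have huo := D.uo
  set o := d * B * d with ho
  have e2 : (o * r) ^ 2 = o * (r * o * r⁻¹) * u := by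
    rw [← D.hr]
    simp only [pow_two, mul_assoc, inv_mul_cancel_left]
  have c1 : Commute (o * (r * o * r⁻¹)) u :=
    ((huo.mul_right ((D.ur.mul_right huo).mul_right D.ur.inv_right))).symm
  have e3 : (o * r) ^ 4 = ((o * r) ^ 2) ^ 2 := by rw [← pow_mul]
  rw [e1, e3, e2, c1.mul_pow, pow_two u, D.hu, mul_one]

omit D in
theorem conj_comm' {g x y : G} (h : Commute x y) : Commute (g * x * g⁻¹) (g * y * g⁻¹) := by
  show g * x * g⁻¹ * (g * y * g⁻¹) = g * y * g⁻¹ * (g * x * g⁻¹)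
  have h1 : x * y = y * x := h
  calc g * x * g⁻¹ * (g * y * g⁻¹) = g * (x * y) * g⁻¹ := by group
    _ = g * (y * x) * g⁻¹ := by rw [h1]
    _ = _ := by group

/-- `o` commutes with `h² B h⁻²` -/
theorem Dat.a2 : Commute (d * B * d) ((r * d) ^ 2 * B * ((r * d) ^ 2)⁻¹) := by
  obtain ⟨g, hg⟩ : ∃ g, g = (r * d)⁻¹ * d * (r * d) := ⟨_, rfl⟩
  have hgg : g * g = 1 := by
    rw [hg]
    have : (r * d)⁻¹ * d * (r * d) * ((r * d)⁻¹ * d * (r * d)) = (r * d)⁻¹ * (d * d) * (r * d) := by group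
    rw [this, D.hd]
    group
  have h1 : Commute B (g * B * g) := by
    have h2 := D.bg
    rw [← hg] at h2
    exact Pool.Agent.Helper46.SV.TE.comm_cj D.hB hgg h2
  have e1 : ((r * d) ^ 2)⁻¹ * d = g * v := by
    have i1 : (r * d) * v = u * (r * d) := by
      rw [← D.hu', inv_mul_cancel_right]
    have i2 : d * u * (r * d) = (r * d)⁻¹ * d := by
      rw [mul_inv_rev, inv_of D.hd, D.rinv]
      have := D.ur.eq
      calc d * u * (r * d) = d * (u * r) * d := by simp only [mul_assoc]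
        _ = d * (r * u) * d := by rw [this]
    calc ((r * d) ^ 2)⁻¹ * d = (r * d)⁻¹ * ((r * d)⁻¹ * d) := by
          rw [pow_two, mul_inv_rev, mul_assoc]
      _ = (r * d)⁻¹ * (d * u * (r * d)) := by rw [i2]
      _ = (r * d)⁻¹ * d * (u * (r * d)) := by simp only [mul_assoc]
      _ = g * v := by rw [← i1, hg]; simp only [mul_assoc]
  have e2 : g * B * g = ((r * d) ^ 2)⁻¹ * (d * B * d) * (((r * d) ^ 2)⁻¹)⁻¹ := by
    have i1 : ((r * d) ^ 2)⁻¹ * (d * B * d) * (((r * d) ^ 2)⁻¹)⁻¹ =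
        (((r * d) ^ 2)⁻¹ * d) * B * (((r * d) ^ 2)⁻¹ * d)⁻¹ := by
      rw [mul_inv_rev, inv_of D.hd]
      simp only [mul_assoc]
    have i2 := D.vB.eq
    rw [i1, e1, mul_inv_rev, inv_of hgg]
    calc g * B * g = g * (B * v) * v⁻¹ * g := by group
      _ = g * (v * B) * v⁻¹ * g := by rw [i2]
      _ = g * v * B * (v⁻¹ * g) := by simp only [mul_assoc]
  rw [e2] at h1
  have h3 := conj_comm' (g := (r * d) ^ 2) h1.symm
  have e3 : (r * d) ^ 2 * (((r * d) ^ 2)⁻¹ * (d * B * d) * (((r * d) ^ 2)⁻¹)⁻¹) * ((r * d) ^ 2)⁻¹ =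
      d * B * d := by group
  rwa [e3] at h3

omit D in
theorem semi_sq {x o : G} (hx : x * x = 1) (ho : o * o = 1) : SemiconjBy x o (o * (o * x) ^ 2) := by
  show x * o = o * (o * x) ^ 2 * x
  simp only [pow_two, mul_assoc, cc ho, hx, mul_one]

/-- `ω B = B Λ u ω` for `ω = (B r d)⁴`, `Λ = (B r^d)⁴`, if `ω^d = ω ζ` with `ζ` commuting with `B` -/
theorem Dat.beta {Λ ζ : G} (hΛ : Λ = (B * (d * r * d)) ^ 4) (hΛB : Commute (d * Λ * d) B)
    (hc : Commute ((r * d) ^ 4) B) (hco : Commute ((r * d) ^ 4) (d * B * d))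
    (hζ : d * (B * r * d) ^ 4 * d = (B * r * d) ^ 4 * ζ) (hζB : Commute ζ B) :
    (B * r * d) ^ 4 * B = B * Λ * u * (B * r * d) ^ 4 := by
  obtain ⟨o, ho⟩ : ∃ o, o = d * B * d := ⟨_, rfl⟩
  obtain ⟨h, hh⟩ : ∃ h, h = r * d := ⟨_, rfl⟩
  obtain ⟨ω, hω⟩ : ∃ ω, ω = (B * r * d) ^ 4 := ⟨_, rfl⟩
  obtain ⟨M, hM⟩ : ∃ M, M = (o * r) ^ 4 := ⟨_, rfl⟩
  have hMΛ : d * Λ * d = M := by
    rw [hM, hΛ, ho]
    simp only [pow_succ, pow_zero, one_mul, mul_assoc, D.hd, mul_one]
  have a1 := D.a1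
  have a2 := D.a2
  have a3 := D.a3
  have oo := D.oo
  have vo := D.vo
  have oB := D.oB
  have h1 := D.hv'
  have h2 := D.hu'
  rw [← ho] at a1 a2 a3 oo vo oB hco
  rw [← hh] at a1 a2 a3 hc hco h1 h2
  rw [← hM] at a3
  rw [hMΛ] at hΛB
  -- the four factors
  have e0 : ω = B * (h * B * h⁻¹) * (h ^ 2 * B * (h ^ 2)⁻¹) * (h⁻¹ * B * h) * h ^ 4 := by
    have i1 : h⁻¹ * B * h = h ^ 3 * B * (h ^ 3)⁻¹ := by
      have i2 := hc.eq
      calc h⁻¹ * B * h = h⁻¹ * (B * h ^ 4) * (h ^ 3)⁻¹ := by group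
        _ = h⁻¹ * (h ^ 4 * B) * (h ^ 3)⁻¹ := by rw [i2]
        _ = _ := by group
    rw [hω, i1, mul_assoc B r d, ← hh]
    have i3 : (B * h) ^ 4 = B * h * (B * h) * (B * h) * (B * h) := by
      simp only [pow_succ, pow_zero, one_mul]
    rw [i3]
    group
  have s1 : SemiconjBy (h⁻¹ * B * h) o (o * v) := by
    have i1 : h⁻¹ * B * h * (h⁻¹ * B * h) = 1 := by
      have : h⁻¹ * B * h * (h⁻¹ * B * h) = h⁻¹ * (B * B) * h := by group
      rw [this, D.hB]
      group
    have i2 := semi_sq i1 oo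
    rwa [a1] at i2
  have vB := D.vB
  have s2 : SemiconjBy (h ^ 2 * B * (h ^ 2)⁻¹) (o * v) (o * v) := by
    have i1 : Commute (h ^ 2 * B * (h ^ 2)⁻¹) v := by
      have i2 := conj_comm' (g := h ^ 2) vB
      have i3 : h ^ 2 * v * (h ^ 2)⁻¹ = v := by
        have : h ^ 2 * v * (h ^ 2)⁻¹ = h * (h * v * h⁻¹) * h⁻¹ := by
          rw [pow_two]
          simp only [mul_inv_rev, mul_assoc]
        rw [this, h2, h1]
      rw [i3] at i2
      exact i2.symm
    exact (a2.symm.mul_right i1)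
  have uB := D.uB
  have c3 : Commute (h * B * h⁻¹) v := by
    have i2 := conj_comm' (g := h) uB
    rw [h1] at i2
    exact i2.symm
  have s3 : SemiconjBy (h * B * h⁻¹) (o * v) (o * M * v) := by
    have i1 : h * B * h⁻¹ * (h * B * h⁻¹) = 1 := by
      have : h * B * h⁻¹ * (h * B * h⁻¹) = h * (B * B) * h⁻¹ := by group
      rw [this, D.hB]
      group
    have i2 : SemiconjBy (h * B * h⁻¹) o (o * M) := by
      have i3 := semi_sq i1 oo
      rwa [a3] at i3
    exact i2.mul_right c3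
  have s4 : SemiconjBy B (o * M * v) (o * M * v) := (oB.mul_right hΛB.symm).mul_right vB.symm
  have s5 : SemiconjBy (h ^ 4) o o := hco
  have s6 : SemiconjBy ω o (o * M * v) := by
    rw [e0]
    exact (((s4.mul_left s3).mul_left s2).mul_left s1).mul_left s5
  -- conjugation by `d`
  have s7 : d * ω * d * B = B * Λ * u * (d * ω * d) := by
    have i1 : ω * o = o * M * v * ω := s6
    calc d * ω * d * B = d * (ω * o) * d := by
          rw [ho]; simp only [mul_assoc, D.hd, mul_one]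
      _ = d * (o * M * v * ω) * d := by rw [i1]
      _ = d * o * d * (d * M * d) * (d * v * d) * (d * ω * d) := by
          simp only [mul_assoc, cc D.hd]
      _ = B * Λ * u * (d * ω * d) := by
          rw [D.dvd, ← hMΛ, ho]
          simp only [mul_assoc, cc D.hd]
  rw [← hω] at hζ ⊢
  rw [hζ] at s7
  have i2 := hζB.eq
  apply mul_right_cancel (b := ζ)
  calc ω * B * ζ = ω * (ζ * B) := by rw [i2, mul_assoc]
    _ = ω * ζ * B := by rw [mul_assoc]
    _ = B * Λ * u * (ω * ζ) := s7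
    _ = B * Λ * u * ω * ζ := by simp only [mul_assoc]

end core

section om

variable {G : Type u} [Group G] {E : Set G} (h : Law E)
include h

theorem omg_same {x y z : G} (hx : x ∈ E) (hy : y ∈ E) (hz : z ∈ E) :
    omg x (cj y z) z = omg x y z := by
  have hyz := ej h.toDL hy hz
  have i1 : x * cj y z * z = x * z * y := by
    simp only [cj, mul_assoc, h.inv z hz, mul_one]
  rw [← abc_four h hx hyz hz, i1, abc_four h hx hz hy, ← omg_cyc h hy hx hz, omg_comm h hy hx hz]

theorem omg_left {a b c : G} (ha : a ∈ E) (hb : b ∈ E) (hc : c ∈ E) : Commute (omg a b c) a :=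
  ((ww_comm_self h hb ha hc).mul_left (ww_comm_right h hc hb ha)).mul_left (ww_comm_left h ha hc hb)

theorem omg_mid {a b c : G} (ha : a ∈ E) (hb : b ∈ E) (hc : c ∈ E) : Commute (omg a b c) b :=
  ((ww_comm_left h hb ha hc).mul_left (ww_comm_self h hc hb ha)).mul_left (ww_comm_right h ha hc hb)

theorem omg_right {a b c : G} (ha : a ∈ E) (hb : b ∈ E) (hc : c ∈ E) : Commute (omg a b c) c :=
  ((ww_comm_right h hb ha hc).mul_left (ww_comm_left h hc hb ha)).mul_left (ww_comm_self h ha hc hb)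

end om

/-- K0 for the group generated by `a, b, c, d` -/
theorem k0_core {G : Type u} [Group G] (hS : NoD16 G) {E : Set G} (hE : DLaw E) {a b c d : G}
    (ha : a ∈ E) (hb : b ∈ E) (hc : c ∈ E) (hd : d ∈ E) (hgen : closure ({a, b, c, d} : Set G) = ⊤)
    (hexc : Exc a b c) (hva : Commute (cj (kk a b) d) a) (hvb : Commute (cj (kk a b) d) b)
    (hvc : Commute (cj (kk a b) d) c) : Commute (kk a b) d := by
  have hD := dl_of hE
  have hlaw := law_of_noD16 hS hD
  have haa := hE.inv a ha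
  have hbb := hE.inv b hb
  have hcc := hE.inv c hc
  have hdd := hE.inv d hd
  obtain ⟨u, hu⟩ : ∃ u, u = kk a b := ⟨_, rfl⟩
  obtain ⟨v, hv⟩ : ∃ v, v = cj u d := ⟨_, rfl⟩
  obtain ⟨r, hr⟩ : ∃ r, r = a * b := ⟨_, rfl⟩
  have huu : u * u = 1 := by rw [hu]; exact ek_sq hD ha hb
  have hvv : v * v = 1 := by rw [hv]; exact cj_sq huu hdd
  have hua : Commute u a := by rw [hu]; exact ek_left hD ha hb
  have hub : Commute u b := by rw [hu]; exact ek_right hD ha hb
  have huc : Commute u c := by rw [hu]; exact hexc.2.1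
  have hrr : r * r = u := by rw [hr, hu]; rfl
  rw [← hu] at hva hvb hvc ⊢
  rw [← hv] at hva hvb hvc
  have hur : Commute u r := by rw [hr]; exact hua.mul_right hub
  have hvr : Commute v r := by rw [hr]; exact hva.mul_right hvb
  have huv : Commute u v := by rw [← hrr]; exact (hvr.mul_right hvr).symm
  have hdu : d * u * d = v := hv.symm
  have hdv : d * v * d = u := by rw [hv]; exact cj_cj hdd
  by_contra hne
  have hne' : u ≠ v := by
    intro h1
    apply hne
    rw [commute_iff_cj hdd]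
    rw [← hv]
    exact h1.symm
  have hu1 : u ≠ 1 := by
    intro h1
    apply hne'
    rw [h1] at hdu
    rw [h1, ← hdu, mul_one, hdd]
  have hsd : (c * r) ^ 4 = u := by
    have h1 : (c * r) ^ 4 = c * (r * c) ^ 4 * c := by
      simp only [pow_succ, pow_zero, one_mul, mul_assoc, hcc, mul_one]
    rw [h1, hr, ← hexc.1, ← hu, ← huc.eq, mul_assoc, hcc, mul_one]
  have hgE : (r * d)⁻¹ * d * (r * d) ∈ E := by
    have h1 := hE.conj (r * d)⁻¹ d hd
    rwa [inv_inv] at h1
  have D : Dat c r d u v := ⟨hcc, hdd, hrr, huu, hv, huc, hvc, hvr, hsd, hD.four c hc d hd,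
    hD.four c hc _ hgE⟩
  -- the subgroup `L = {1, u, v, u v}`
  obtain ⟨L, hL⟩ : ∃ L : Subgroup G, L = closure {u, v, 1} := ⟨_, rfl⟩
  have huL : u ∈ L := by rw [hL]; exact subset_closure (by simp)
  have hvL : v ∈ L := by rw [hL]; exact subset_closure (by simp)
  have h1L : (1 : G) ∈ L := one_mem L
  have hLform : ∀ ζ ∈ L, ∃ i j : ℕ, ζ = u ^ i * v ^ j := by
    intro ζ hζ
    rw [hL] at hζ
    obtain ⟨i, j, k, h1⟩ := mem_three huv (Commute.one_right u) (Commute.one_right v) huu hvv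
      (mul_one 1) hζ
    exact ⟨i, j, by rw [h1, one_pow, mul_one]⟩
  have hLcomm : ∀ ζ ∈ L, ∀ x, Commute u x → Commute v x → Commute ζ x := by
    intro ζ hζ x h1 h2
    obtain ⟨i, j, rfl⟩ := hLform ζ hζ
    exact (h1.pow_left i).mul_left (h2.pow_left j)
  have hLc : ∀ ζ ∈ L, Commute ζ c := fun ζ hζ => hLcomm ζ hζ c huc hvc
  have hLr : ∀ ζ ∈ L, Commute ζ r := fun ζ hζ => hLcomm ζ hζ r hur hvr
  have hLo : ∀ ζ ∈ L, Commute ζ (d * c * d) := fun ζ hζ => hLcomm ζ hζ _ D.uo D.vo
  have hLsq : ∀ ζ ∈ L, ζ * ζ = 1 := by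
    intro ζ hζ
    obtain ⟨i, j, rfl⟩ := hLform ζ hζ
    have h1 : Commute (u ^ i) (v ^ j) := (huv.pow_left i).pow_right j
    rw [← pow_two, h1.mul_pow, ← pow_mul, ← pow_mul, mul_comm i, mul_comm j, pow_mul, pow_mul, pow_two,
      pow_two, huu, hvv, one_pow, one_pow, mul_one]
  have hLn : L.Normal := by
    have hcom : ∀ x, Commute u x → Commute v x → x ∈ normalizer (L : Set G) := by
      intro x h1 h2
      refine mem_norm hL ?_ ?_
      · rintro y (rfl | rfl | rfl)
        · rw [← h1.eq, mul_inv_cancel_right]; exact huL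
        · rw [← h2.eq, mul_inv_cancel_right]; exact hvL
        · rw [mul_one, mul_inv_cancel]; exact h1L
      · rintro y (rfl | rfl | rfl)
        · rw [mul_assoc, h1.eq, inv_mul_cancel_left]; exact huL
        · rw [mul_assoc, h2.eq, inv_mul_cancel_left]; exact hvL
        · rw [mul_one, inv_mul_cancel]; exact h1L
    have hdn : d ∈ normalizer (L : Set G) := by
      refine mem_norm hL ?_ ?_
      · rintro y (rfl | rfl | rfl)
        · rw [inv_of hdd, hdu]; exact hvL
        · rw [inv_of hdd, hdv]; exact huL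
        · rw [mul_one, mul_inv_cancel]; exact h1L
      · rintro y (rfl | rfl | rfl)
        · rw [inv_of hdd, hdu]; exact hvL
        · rw [inv_of hdd, hdv]; exact huL
        · rw [mul_one, inv_mul_cancel]; exact h1L
    have htop : (⊤ : Subgroup G) ≤ normalizer (L : Set G) := by
      rw [← hgen, closure_le]
      rintro x (rfl | rfl | rfl | rfl)
      · exact hcom _ hua hva
      · exact hcom _ hub hvb
      · exact hcom _ huc hvc
      · exact hdn
    refine ⟨fun n hn g => ?_⟩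
    exact (mem_normalizer_iff.mp (htop (mem_top g)) n).mp hn
  -- the quotient
  have hS' : NoD16 (G ⧸ L) := hS.quotient L
  obtain ⟨f, hf⟩ : ∃ f : G →* G ⧸ L, f = QuotientGroup.mk' L := ⟨_, rfl⟩
  have hfs : Function.Surjective f := by rw [hf]; exact QuotientGroup.mk'_surjective L
  have hker : ∀ x, f x = 1 ↔ x ∈ L := by
    intro x
    rw [hf]
    exact QuotientGroup.eq_one_iff x
  have heq : ∀ x y, f x = f y → ∃ ζ ∈ L, y = x * ζ := by
    intro x y hxy
    refine ⟨x⁻¹ * y, ?_, (mul_inv_cancel_left x y).symm⟩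
    rw [← hker, map_mul, map_inv, hxy, inv_mul_cancel]
  obtain ⟨F, hEF, hF, hFmax⟩ := exists_max (hE.image f hfs)
  have hFm : MaxLaw F := ⟨hF, hFmax⟩
  have hFl := law_of_noD16 hS' (dl_of hF)
  have hma : f a ∈ F := hEF ⟨a, ha, rfl⟩
  have hmb : f b ∈ F := hEF ⟨b, hb, rfl⟩
  have hmc : f c ∈ F := hEF ⟨c, hc, rfl⟩
  have hmd : f d ∈ F := hEF ⟨d, hd, rfl⟩
  have hmr : f r ∈ F := by
    rw [hr, map_mul]
    refine mul_mem_of_max hS' hFm hma hmb ?_
    refine comm_of_kk (hF.inv _ hma) (hF.inv _ hmb) ?_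
    have h1 : kk (f a) (f b) = f (kk a b) := by simp only [kk, map_mul]
    rw [h1, ← hu, hker]
    exact huL
  have hcc' := hF.inv _ hmc
  have hrr' := hF.inv _ hmr
  have hdd' := hF.inv _ hmd
  -- `ω`
  obtain ⟨ω, hω⟩ : ∃ ω, ω = (c * r * d) ^ 4 := ⟨_, rfl⟩
  have hfω : f ω = omg (f c) (f r) (f d) := by
    rw [hω, map_pow, map_mul, map_mul, abc_four hFl hmc hmr hmd]
  have hωd : Commute (f ω) (f d) := by rw [hfω]; exact omg_right hFl hmc hmr hmd
  have hωr : Commute (f ω) (f r) := by rw [hfω]; exact omg_mid hFl hmc hmr hmd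
  obtain ⟨ζ, hζL, hζ⟩ := heq ω (d * ω * d) (by
    rw [map_mul, map_mul]
    exact ((commute_iff_cj hdd').mp hωd).symm)
  have hrd : (r * d) ^ 4 ∈ L := by
    rw [← hker, map_pow, map_mul]
    exact hFl.four _ hmr _ hmd
  -- `Λ`
  obtain ⟨Λ, hΛ⟩ : ∃ Λ, Λ = (c * (d * r * d)) ^ 4 := ⟨_, rfl⟩
  obtain ⟨t, ht⟩ : ∃ t, t = d * r * d := ⟨_, rfl⟩
  have htt : t * t = v := by
    rw [ht, ← hdu, ← hrr]
    simp only [mul_assoc, cc hdd]
  have hvt : Commute v t := by
    have h1 : v = t * t := htt.symm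
    rw [h1]
    exact ((Commute.refl t).mul_left (Commute.refl t))
  have hΛ' : Λ = 1 ∨ Λ = v := by
    have ha' := ej hD ha hd
    have hb' := ej hD hb hd
    have h8 : (c * t) ^ 8 = 1 := by
      have h1 : c * t = c * cj a d * cj b d := by
        rw [ht, hr]
        simp only [cj, mul_assoc, cc hdd]
      have h2 : (c * t) ^ 8 = (c * t) ^ 4 * (c * t) ^ 4 := by rw [← pow_add]
      rw [h2, h1, abc_four hlaw hc ha' hb', omg_sq hlaw hc ha' hb']
    obtain ⟨L', hL'⟩ : ∃ L' : Subgroup G, L' = closure {v, 1, 1} := ⟨_, rfl⟩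
    have hvL' : v ∈ L' := by rw [hL']; exact subset_closure (by simp)
    have hcom : ∀ x, Commute v x → x ∈ normalizer (L' : Set G) := by
      intro x h2
      refine mem_norm hL' ?_ ?_
      · rintro y (rfl | rfl | rfl)
        · rw [← h2.eq, mul_inv_cancel_right]; exact hvL'
        · rw [mul_one, mul_inv_cancel]; exact one_mem _
        · rw [mul_one, mul_inv_cancel]; exact one_mem _
      · rintro y (rfl | rfl | rfl)
        · rw [mul_assoc, h2.eq, inv_mul_cancel_left]; exact hvL'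
        · rw [mul_one, inv_mul_cancel]; exact one_mem _
        · rw [mul_one, inv_mul_cancel]; exact one_mem _
    have h3 := four_mem8 hS (hcom c hvc) (hcom t hvt) (by rw [hcc]; exact one_mem _)
      (by rw [htt]; exact hvL') (by rw [h8]; exact one_mem _)
    rw [hL'] at h3
    obtain ⟨i, j, k, h4⟩ := mem_three (Commute.one_right v) (Commute.one_right v) (Commute.one_right 1)
      hvv (mul_one 1) (mul_one 1) h3
    rw [one_pow, one_pow, mul_one, mul_one] at h4
    rw [hΛ, ← ht, h4]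
    exact pow_cases hvv i
  have hΛc : Commute (d * Λ * d) c := by
    rcases hΛ' with h1 | h1
    · rw [h1, mul_one, hdd]
      exact Commute.one_left c
    · rw [h1, hdv]
      exact huc
  have hmain : ω * c = c * Λ * u * ω := by
    rw [hω]
    refine D.beta hΛ hΛc (hLc _ hrd) (hLo _ hrd) (ζ := ζ) ?_ (hLc ζ hζL)
    rw [← hω]
    exact hζ
  -- `ω` does not commute with `c`
  have K1 : ¬ Commute ω c := by
    intro h1
    have h2 : c * ω = c * Λ * u * ω := by rw [← h1.eq, hmain]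
    have h3 : Λ * u = 1 := by
      have h4 : c * ω = c * (Λ * u) * ω := by rw [h2]; simp only [mul_assoc]
      have h5 := mul_right_cancel h4
      exact mul_eq_left.mp h5.symm
    rcases hΛ' with h4 | h4
    · rw [h4, one_mul] at h3
      exact hu1 h3
    · rw [h4] at h3
      apply hne'
      have h5 : v * u = u * u := by rw [h3, huu]
      exact (mul_right_cancel h5).symm
  have K2 : ∀ m : G, f m = f ω → ¬ Commute m c := by
    intro m hm h1
    obtain ⟨ξ, hξ, h2⟩ := heq m ω hm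
    apply K1
    rw [h2]
    exact h1.mul_left (hLc ξ hξ)
  have K3 : ∀ m : G, f m = f ω → ¬ Commute m (r⁻¹ * c * r) := by
    intro m hm h1
    apply K2 m hm
    have h2 : f m = f (r * m * r⁻¹) := by
      rw [map_mul, map_mul, map_inv, hm, ← hωr.eq, mul_inv_cancel_right]
    obtain ⟨ξ, hξ, h3⟩ := heq m _ h2
    have h4 := conj_comm' (g := r) h1
    have h5 : r * (r⁻¹ * c * r) * r⁻¹ = c := by group
    rw [h5, h3] at h4
    have h6 : m = m * ξ * ξ⁻¹ := by group
    rw [h6]
    exact h4.mul_left (hLc ξ hξ).inv_left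
  have hc1E : r⁻¹ * c * r ∈ E := by
    have h1 := hE.conj r⁻¹ c hc
    rwa [inv_inv] at h1
  have hfc1 : f (r⁻¹ * c * r) = cj (f c) (f r) := by
    rw [map_mul, map_mul, map_inv, inv_of hrr']
    rfl
  have hfo : f (d * c * d) = cj (f c) (f d) := by
    rw [map_mul, map_mul]
    rfl
  have hfkk : ∀ x y : G, f (kk x y) = kk (f x) (f y) := by
    intro x y
    simp only [kk, map_mul]
  have hoE : d * c * d ∈ E := hD.cj hc hdd
  -- the element `κ = [c^r, c^d]`
  have K4 : f ω ≠ ww (f c) (f r) (f d) := by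
    intro h1
    refine K3 (kk (r⁻¹ * c * r) (d * c * d)) ?_ (ek_left hD hc1E hoE)
    rw [hfkk, hfc1, hfo, h1]
    rfl
  rcases p3_or_exc hFl hS' hmc hmr hmd with h1 | h1 | h1 | h1 | h1 | h1 | h1
  · refine K2 1 ?_ (Commute.one_left c)
    rw [map_one, hω, map_pow, map_mul, map_mul, h1]
  · -- `(c, r, d)`
    obtain ⟨-, h2, -, -⟩ := h1
    obtain ⟨y, hy⟩ : ∃ y, y = kk c r := ⟨_, rfl⟩
    rw [← hfkk, ← hy] at h2
    obtain ⟨ξ, hξ, h3⟩ := heq y (d * y * d) (by
      rw [map_mul, map_mul]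
      exact ((commute_iff_cj hdd').mp h2).symm)
    have hyy : y * y = u := by
      rw [← hsd, hy]
      simp only [kk, pow_succ, pow_zero, one_mul, mul_assoc]
    have hξy : Commute ξ y := by
      rw [hy]
      exact ((hLc ξ hξ).mul_right (hLr ξ hξ)).mul_right ((hLc ξ hξ).mul_right (hLr ξ hξ))
    apply hne'
    have h4 : d * y * d * (d * y * d) = v := by
      rw [← hdu, ← hyy]
      simp only [mul_assoc, cc hdd]
    have h5 : d * y * d * (d * y * d) = u := by
      rw [h3]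
      calc y * ξ * (y * ξ) = y * (ξ * y) * ξ := by simp only [mul_assoc]
        _ = y * (y * ξ) * ξ := by rw [hξy.eq]
        _ = (y * y) * (ξ * ξ) := by simp only [mul_assoc]
        _ = u := by rw [hyy, hLsq ξ hξ, mul_one]
    rw [← h4, h5]
  · -- `(c, r^d, d)`
    obtain ⟨h2, -, -, -⟩ := h1
    obtain ⟨η, hη⟩ : ∃ η, η = kk c t := ⟨_, rfl⟩
    have hft : f t = cj (f r) (f d) := by
      rw [ht, map_mul, map_mul]
      rfl
    have hfη : f η = f ω := by
      rw [hη, hfkk, hft, h2, abc_four hFl hmc (ej hFl.toDL hmr hmd) hmd, omg_same hFl hmc hmr hmd, hfω]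
    obtain ⟨ξ, hξ, h3⟩ := heq η ω hfη
    have hηη : η * η = Λ := by
      rw [hη, hΛ, ← ht]
      simp only [kk, pow_succ, pow_zero, one_mul, mul_assoc]
    have h4 : η * c * η = c := by
      have i1 := hvt.eq
      have i2 := hvc.eq
      rw [hη]
      calc c * t * (c * t) * c * (c * t * (c * t)) = c * t * c * (t * t) * c * t := by
            simp only [mul_assoc, cc hcc]
        _ = c * t * (c * v) * c * t := by rw [htt]; simp only [mul_assoc]
        _ = c * t * (v * c) * c * t := by rw [i2]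
        _ = c * (t * v) * (c * c) * t := by simp only [mul_assoc]
        _ = c * (v * t) * t := by rw [hcc, mul_one, i1]
        _ = c * v * (t * t) := by simp only [mul_assoc]
        _ = c := by rw [htt, mul_assoc, hvv, mul_one]
    have hΛΛ : Λ * Λ = 1 := by
      rcases hΛ' with h5 | h5
      · rw [h5, mul_one]
      · rw [h5, hvv]
    have h5 : η * c = c * Λ * η := by
      have i1 : η * c * η * (η * η * η) = η * c := by
        calc η * c * η * (η * η * η) = η * c * (η * η * (η * η)) := by simp only [mul_assoc]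
          _ = η * c := by rw [hηη, hΛΛ, mul_one]
      rw [← i1, h4, hηη]
      simp only [mul_assoc]
    have h6 : ω * c = c * Λ * ω := by
      have i1 := (hLc ξ hξ).eq
      rw [h3]
      calc η * ξ * c = η * c * ξ := by rw [mul_assoc, i1, mul_assoc]
        _ = c * Λ * (η * ξ) := by rw [h5, mul_assoc]
    have h7 : c * Λ * u * ω = c * Λ * ω := by rw [← hmain, h6]
    exact hu1 (mul_eq_left.mp (mul_right_cancel h7))
  · -- `(r, d, c)`
    obtain ⟨-, -, h2, h3⟩ := h1
    apply K4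
    rw [hfω, omg_cyc hFl hmc hmr hmd]
    unfold omg
    rw [h2, h3, one_mul, one_mul]
  · -- `(r, d^c, c)`
    obtain ⟨-, -, h2, h3⟩ := h1
    have hdc := ej hFl.toDL hmd hmc
    apply K4
    rw [hfω, omg_cyc hFl hmc hmr hmd, ← omg_same hFl hmr hmd hmc]
    unfold omg
    rw [h2, h3, one_mul, one_mul]
    have i1 : cj (f c) (cj (f d) (f c)) = cj (f c) (f d) := by
      have i2 := Pool.Agent.Helper46.SV.TE.ec hFl.toDL hmc hmd
      have i3 : cj (f c) (cj (f d) (f c)) = cj (cj (f c) (f d)) (f c) := by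
        simp only [cj, mul_assoc, cc hcc']
      rw [i3]
      exact (commute_iff_cj hcc').mp i2.symm
    unfold ww
    rw [i1]
  · -- `(d, c, r)`
    obtain ⟨h2, -, -, -⟩ := h1
    refine K2 (kk d c) ?_ (ek_right hD hd hc)
    rw [hfkk, h2, abc_four hFl hmd hmc hmr, omg_cyc hFl hmd hmc hmr, hfω]
  · -- `(d, c^r, r)`
    obtain ⟨h2, -, -, -⟩ := h1
    refine K3 (kk d (r⁻¹ * c * r)) ?_ (ek_right hD hd hc1E)
    rw [hfkk, hfc1, h2, abc_four hFl hmd (ej hFl.toDL hmc hmr) hmr, omg_same hFl hmd hmc hmr,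
      omg_cyc hFl hmd hmc hmr, hfω]

/-- **K0.** If `(a, b, c)` is exceptional and `u = [a, b]` commutes with `a^d`, `b^d`, `c^d`, then `u` commutes
with `d`. -/
theorem k0 {G : Type u} [Group G] (hS : NoD16 G) {E : Set G} (hE : DLaw E) {a b c d : G}
    (ha : a ∈ E) (hb : b ∈ E) (hc : c ∈ E) (hd : d ∈ E) (hexc : Exc a b c)
    (h1 : Commute (kk a b) (cj a d)) (h2 : Commute (kk a b) (cj b d))
    (h3 : Commute (kk a b) (cj c d)) : Commute (kk a b) d := by
  have hdd := hE.inv d hd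
  have g1 := cj_comm hdd h1
  have g2 := cj_comm hdd h2
  have g3 := cj_comm hdd h3
  rw [cj_cj hdd] at g1 g2 g3
  obtain ⟨K, hK⟩ : ∃ K : Subgroup G, K = closure {a, b, c, d} := ⟨_, rfl⟩
  have haK : a ∈ K := by rw [hK]; exact subset_closure (by simp)
  have hbK : b ∈ K := by rw [hK]; exact subset_closure (by simp)
  have hcK : c ∈ K := by rw [hK]; exact subset_closure (by simp)
  have hdK : d ∈ K := by rw [hK]; exact subset_closure (by simp)
  have hEK : DLaw {x : K | (x : G) ∈ E} := by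
    refine ⟨hE.one, ?_, ?_, ?_⟩
    · intro x hx
      ext
      exact hE.inv _ hx
    · intro g x hx
      exact hE.conj _ _ hx
    · intro x hx y hy
      ext
      exact hE.four _ hx _ hy
  have hgen : closure ({⟨a, haK⟩, ⟨b, hbK⟩, ⟨c, hcK⟩, ⟨d, hdK⟩} : Set K) = ⊤ := by
    rw [eq_top_iff]
    have hmap : (closure ({⟨a, haK⟩, ⟨b, hbK⟩, ⟨c, hcK⟩, ⟨d, hdK⟩} : Set K)).map K.subtype = K := by
      rw [MonoidHom.map_closure]
      conv_rhs => rw [hK]
      congr 1
      ext x
      simp [eq_comm]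
    rintro ⟨x, hx⟩ -
    rw [← hmap] at hx
    obtain ⟨y, hy, hyx⟩ := hx
    have : y = ⟨x, by rw [← hmap]; exact ⟨y, hy, hyx⟩⟩ := Subtype.ext hyx
    rw [← this]
    exact hy
  have hco : ∀ x y : K, Commute (x : G) (y : G) → Commute x y := by
    intro x y h
    have h' : (x : G) * y = y * x := h
    show x * y = y * x
    ext
    exact h'
  have key := k0_core (hS.subgroup K) hEK (a := ⟨a, haK⟩) (b := ⟨b, hbK⟩) (c := ⟨c, hcK⟩)
    (d := ⟨d, hdK⟩) ha hb hc hd hgen
    ⟨Subtype.ext hexc.1, hco _ _ hexc.2.1, Subtype.ext hexc.2.2.1, Subtype.ext hexc.2.2.2⟩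
    (hco _ _ g1) (hco _ _ g2) (hco _ _ g3)
  have h' := congrArg (fun x : K => (x : G)) key.eq
  exact h'

end Pool.Agent.Helper91.SV
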