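import Pool.Agent.Helper45.SV.Closure
import Pool.Agent.Helper94.SV.KSec

/-!
# S-letters in groups without section `P128`

If `s` is an involution with `(s e)⁴ = 1` for all `e` in a `DLaw` set `E`, and `a, b ∈ E`, then the conjugates of
`a, b, s` in `⟨a, b, s⟩` form a `DLaw` set.
-/

set_option autoImplicit false
set_option linter.unusedSectionVars false

open Subgroup

namespace Pool.Agent.Helper91.SV

open Pool.Agent.Helper94.SV.Frame
open Pool.Agent.Helper94.SV.K6 (NoP128)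
open Pool.Agent.Helper45.SV

universe u

section S

variable {G : Type u} [Group G] {E : Set G} (hE : DLaw E) {s : G} (hs : s * s = 1)
  (hS : ∀ d ∈ E, (s * d) ^ 4 = 1) {a b : G} (ha : a ∈ E) (hb : b ∈ E)

include hE hs hS ha hb

/-- every element of the even part has fourth power `1` (the proof of helper45 of the closure lemma) -/
theorem v5_exp4 (hG : V5 G) : ∀ x ∈ N0 s a b, x ^ 4 = 1 := by
  have ha2 := hE.inv a ha
  have hb2 := hE.inv b hb
  obtain ⟨hv1, hv2⟩ := sec hE hs hS ha hb hG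
  have hsH : s ∈ closure ({a, b, s} : Set G) := subset_closure (by simp)
  have hab4 : (a * b) ^ 4 = 1 := pow_of_four (hE.four a ha b hb)
  have oinv : (a * b)⁻¹ = b * a := by rw [mul_inv_rev, inv_eq ha2, inv_eq hb2]
  -- the letters
  set f1 := ff s (a * b) 1 with hf1
  set f2 := ff s (a * b) 2 with hf2
  set f3 := ff s (a * b) 3 with hf3
  have m0 : s ∈ N0 s a b := s_mem_N0 s a b
  have m1 : f1 ∈ N0 s a b := subset_closure ⟨1, rfl⟩
  have m2 : f2 ∈ N0 s a b := subset_closure ⟨2, rfl⟩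
  have m3 : f3 ∈ N0 s a b := subset_closure ⟨3, rfl⟩
  have f1s : f1 * f1 = 1 := ff_sq hs 1
  have f2s : f2 * f2 = 1 := ff_sq hs 2
  have f3s : f3 * f3 = 1 := ff_sq hs 3
  have invol : ∀ x y : G, x * x = 1 → y * y = 1 → Commute ((x * y) ^ 2) x → (x * y) ^ 4 = 1 := by
    intro x y hx hy hc
    have h1 : x * (x * y) ^ 2 * x = ((x * y) ^ 2)⁻¹ := by
      rw [pow_two, mul_inv_rev, mul_inv_rev, inv_eq hx, inv_eq hy]
      simp only [mul_assoc]
      rw [canc hx]
    have h2 : x * (x * y) ^ 2 * x = (x * y) ^ 2 := by rw [← hc.eq, mul_assoc, hx, mul_one]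
    have h3 : (x * y) ^ 2 = ((x * y) ^ 2)⁻¹ := h2.symm.trans h1
    calc (x * y) ^ 4 = (x * y) ^ 2 * (x * y) ^ 2 := by rw [← pow_add]
      _ = (x * y) ^ 2 * ((x * y) ^ 2)⁻¹ := by rw [← h3]
      _ = 1 := mul_inv_cancel _
  -- (s f1)^4 = 1
  have hp4 : (s * f1) ^ 4 = 1 := by
    apply invol s f1 hs f1s
    have t0 : a * s * a ∈ N1 s a b := conj_a_N0 hE ha m0
    have t1 : b * s * b ∈ N1 s a b := conj_b_N0 hE ha hb m0
    have hf1' : f1 = b * a * s * (a * b) := by
      rw [hf1]; unfold ff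
      rw [zpow_neg_one, zpow_one, oinv]
    have c1 := (N_comm hE hs hS ha hb m0 t0)
    have c2' := (N_comm hE hs hS ha hb m1 t0)
    have c3 := (N_comm hE hs hS ha hb m0 t1)
    have c4 := (N_comm hE hs hS ha hb m1 t1)
    have e1 : (c2 a s * b) ^ 2 = (s * f1) * ((a * s * a) * (b * s * b)) := by
      have e2 : (c2 a s * b) ^ 2 = (a * s * a) * s * f1 * (b * s * b) := by
        rw [pow_two, hf1']
        simp only [c2_def, mul_assoc]
        rw [canc hb2]
      rw [e2]
      calc a * s * a * s * f1 * (b * s * b) = (a * s * a * s) * f1 * (b * s * b) := by simp only [mul_assoc]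
        _ = s * (a * s * a) * f1 * (b * s * b) := by rw [c1.eq.symm]
        _ = s * ((a * s * a) * f1) * (b * s * b) := by simp only [mul_assoc]
        _ = s * (f1 * (a * s * a)) * (b * s * b) := by rw [c2'.eq.symm]
        _ = _ := by simp only [mul_assoc]
    have cc : Commute (s * f1) ((a * s * a) * (b * s * b)) :=
      (c1.mul_left c2').mul_right (c3.mul_left c4)
    have e3 : (c2 a s * b) ^ 4 = (s * f1) ^ 2 * ((a * s * a) * (b * s * b)) ^ 2 := by
      rw [show 4 = 2 * 2 from rfl, pow_mul, e1, cc.mul_pow]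
    have h1 := Kg_comm hE hs hS ha hb hv1 hsH
    rw [e3] at h1
    have h2 : Commute (((a * s * a) * (b * s * b)) ^ 2) s := (c1.mul_right c3).symm.pow_left 2
    have h3 : (s * f1) ^ 2 = (s * f1) ^ 2 * ((a * s * a) * (b * s * b)) ^ 2 * (((a * s * a) * (b * s * b)) ^ 2)⁻¹ := by
      rw [mul_assoc, mul_inv_cancel, mul_one]
    rw [h3]
    exact h1.mul_left h2.inv_left
  -- ([a,b] s)^4 = (f2 s)^2
  have e4 : (c2 a b * s) ^ 4 = (f2 * s) ^ 2 := by
    have e5 : (c2 a b * s) ^ 2 = f2 * s := by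
      have e6 : c2 a b = (a * b) ^ (2 : ℤ) := by
        rw [c2_def]; norm_cast; rw [pow_two]
      have e7 : (a * b) ^ (2 : ℤ) = (a * b) ^ (-(2 : ℤ)) := by
        have h8 : (a * b) ^ (2 : ℤ) * (a * b) ^ (2 : ℤ) = 1 := by
          rw [← zpow_add]; exact_mod_cast hab4
        rw [zpow_neg]
        exact eq_inv_of_mul_eq_one_left h8
      rw [pow_two, e6]
      calc (a * b) ^ (2 : ℤ) * s * ((a * b) ^ (2 : ℤ) * s) =
            (a * b) ^ (-(2 : ℤ)) * s * (a * b) ^ (2 : ℤ) * s := by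
              rw [← e7]; simp only [mul_assoc]
        _ = f2 * s := rfl
    rw [show 4 = 2 * 2 from rfl, pow_mul, e5]
  have hr : (f2 * s) ^ 2 ∈ Kg s a b := by rw [← e4]; exact hv2
  have hKN1 : ∀ x ∈ Kg s a b, x ∈ N1 s a b := by
    intro x hx
    have h1 : Kg s a b ≤ N1 s a b := by
      unfold Kg
      rw [closure_le]
      rintro _ ⟨n, hn, rfl⟩
      have fa := four_fix hE hs hS ha hb hn ha (fun x hx => conj_a_N0 hE ha hx)
      rw [SetLike.mem_coe, ← fa]
      exact conj_a_N0 hE ha (pow_mem hn 4)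
    exact h1 hx
  have hq4 : (s * f2) ^ 4 = 1 := by
    apply invol s f2 hs f2s
    have h1 : (s * f2) ^ 2 = ((f2 * s) ^ 2)⁻¹ := by
      rw [pow_two, pow_two, mul_inv_rev, mul_inv_rev, inv_eq hs, inv_eq f2s]
    rw [h1]
    exact (Kg_comm hE hs hS ha hb hr hsH).inv_left
  -- the element `w`
  set w := f3 * f2 * f1 * s with hw
  have rotN1 : ∀ x ∈ N1 s a b, (a * b)⁻¹ * x * (a * b) ∈ N1 s a b := by
    intro x hx
    have h1 := conj_b_N0 hE ha hb (conj_a_N1 hE ha hx)
    rw [oinv]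
    have e : b * (a * x * a) * b = b * a * x * (a * b) := by simp only [mul_assoc]
    rwa [← e]
  have hwN1 : w ∈ N1 s a b := by
    have t1 : b * s * b ∈ N1 s a b := conj_b_N0 hE ha hb m0
    set n0 := b * s * b with hn0
    set n1 := (a * b)⁻¹ * n0 * (a * b) with hn1
    set n2 := (a * b)⁻¹ * n1 * (a * b) with hn2
    set n3 := (a * b)⁻¹ * n2 * (a * b) with hn3
    have k1 : n1 ∈ N1 s a b := rotN1 _ t1
    have k2 : n2 ∈ N1 s a b := rotN1 _ k1
    have k3 : n3 ∈ N1 s a b := rotN1 _ k2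
    have h4 : (a * (s * b * s)) ^ 4 = 1 := by
      apply pow_of_four
      apply hE.four a ha
      have := hE.conj s b hb
      rwa [inv_eq hs] at this
    have e1 : a * (s * b * s) = a * b * (n0 * s) := by
      rw [hn0]; simp only [mul_assoc]; rw [canc hb2]
    have g1 : (a * b)⁻¹ * s * (a * b) = f1 := by
      rw [hf1]; unfold ff; rw [zpow_neg_one, zpow_one]
    have g2 : (a * b)⁻¹ * f1 * (a * b) = f2 := ff_step s (a * b) 1
    have g3 : (a * b)⁻¹ * f2 * (a * b) = f3 := ff_step s (a * b) 2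
    have e2 : (a * b * (n0 * s)) ^ 4 = (a * b) ^ 4 * ((n3 * f3) * (n2 * f2) * (n1 * f1) * (n0 * s)) := by
      rw [hn3, hn2, hn1, ← g3, ← g2, ← g1]
      simp only [pow_succ, pow_zero, one_mul]
      group
    rw [e1, e2, hab4, one_mul] at h4
    have c : ∀ x ∈ N0 s a b, ∀ y ∈ N1 s a b, x * y = y * x := fun x hx y hy =>
      (N_comm hE hs hS ha hb hx hy).eq
    have e3 : (n3 * f3) * (n2 * f2) * (n1 * f1) * (n0 * s) = (n3 * n2 * n1 * n0) * w := by
      rw [hw]
      calc (n3 * f3) * (n2 * f2) * (n1 * f1) * (n0 * s) = n3 * (f3 * n2) * f2 * n1 * f1 * n0 * s := by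
            simp only [mul_assoc]
        _ = n3 * n2 * (f3 * f2 * n1) * f1 * n0 * s := by rw [c f3 m3 n2 k2]; simp only [mul_assoc]
        _ = n3 * n2 * n1 * (f3 * f2 * f1 * n0) * s := by
            rw [c (f3 * f2) (mul_mem m3 m2) n1 k1]; simp only [mul_assoc]
        _ = _ := by
            rw [c (f3 * f2 * f1) (mul_mem (mul_mem m3 m2) m1) n0 t1]; simp only [mul_assoc]
    rw [e3] at h4
    have e5 : w = (n3 * n2 * n1 * n0)⁻¹ := eq_inv_of_mul_eq_one_right h4
    rw [e5]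
    exact inv_mem (mul_mem (mul_mem (mul_mem k3 k2) k1) t1)
  have wc : ∀ x ∈ N0 s a b, Commute w x := fun x hx => (N_comm hE hs hS ha hb hx hwN1).symm
  obtain ⟨p, hp⟩ : ∃ p, p = s * f1 := ⟨_, rfl⟩
  obtain ⟨q, hq⟩ : ∃ q, q = s * f2 := ⟨_, rfl⟩
  have mp : p ∈ N0 s a b := by rw [hp]; exact mul_mem m0 m1
  have mq : q ∈ N0 s a b := by rw [hq]; exact mul_mem m0 m2
  have hp4 : p ^ 4 = 1 := by rw [hp]; exact hp4
  have hq4 : q ^ 4 = 1 := by rw [hq]; exact hq4
  have sps : s * p * s = p⁻¹ := by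
    rw [hp, mul_inv_rev, inv_eq hs, inv_eq f1s, ← mul_assoc, hs, one_mul]
  have sqs : s * q * s = q⁻¹ := by
    rw [hq, mul_inv_rev, inv_eq hs, inv_eq f2s, ← mul_assoc, hs, one_mul]
  have ef3 : f3 = w * (p * f2) := by
    rw [hw, hp]
    have : f3 * f2 * f1 * s * (s * f1 * f2) = f3 * (f2 * (f1 * (s * s) * f1) * f2) := by
      simp only [mul_assoc]
    rw [this, hs, mul_one, f1s, mul_one, f2s, mul_one]
  -- p q = q p w²
  have hpq : p * q = q * p * w ^ 2 := by
    have h1 : w ^ 2 * (p * f2) ^ 2 = 1 := by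
      have hc : Commute w (p * f2) := wc _ (mul_mem mp m2)
      rw [← hc.mul_pow, ← ef3, pow_two, f3s]
    have h2 : f2 * p⁻¹ * f2 = w ^ 2 * p := by
      -- (p f2)² = w^{-2}
      have h3 : (p * f2) ^ 2 = (w ^ 2)⁻¹ := eq_inv_of_mul_eq_one_right h1
      have h4 : f2 * p * f2 = p⁻¹ * (w ^ 2)⁻¹ := by
        rw [← h3, pow_two]
        simp only [mul_assoc]
        rw [inv_mul_cancel_left]
      have h5 : f2 * p⁻¹ * f2 = (f2 * p * f2)⁻¹ := by
        rw [mul_inv_rev, mul_inv_rev, inv_eq f2s, mul_assoc]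
      rw [h5, h4, mul_inv_rev, inv_inv, inv_inv]
    have h6 : q⁻¹ * p * q = w ^ 2 * p := by
      have hqi : q⁻¹ = f2 * s := by rw [hq, mul_inv_rev, inv_eq hs, inv_eq f2s]
      have h7 : q⁻¹ * p * q = f2 * p⁻¹ * f2 := by
        calc q⁻¹ * p * q = f2 * s * p * (s * f2) := by rw [hqi, hq]
          _ = f2 * (s * p * s) * f2 := by simp only [mul_assoc]
          _ = f2 * p⁻¹ * f2 := by rw [sps]
      rw [h7, h2]
    have h8 : p * q = q * (w ^ 2 * p) := by rw [← h6]; group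
    rw [h8, ((wc p mp).pow_left 2).eq, mul_assoc]
  -- w⁴ = 1
  have hw4 : w ^ 4 = 1 := by
    have h1 : Commute (q ^ 2) p := by
      have h2 : q ^ 2 = ((f2 * s) ^ 2)⁻¹ := by
        rw [hq, pow_two, pow_two, mul_inv_rev, mul_inv_rev, inv_eq hs, inv_eq f2s]
      rw [h2]
      exact (N_comm hE hs hS ha hb mp (hKN1 _ hr)).symm.inv_left
    have wq : Commute (w ^ 2) q := (wc q mq).pow_left 2
    have h3 : p * q ^ 2 = q ^ 2 * p * w ^ 4 := by
      calc p * q ^ 2 = p * q * q := by rw [pow_two, mul_assoc]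
        _ = q * p * (w ^ 2 * q) := by rw [hpq]; simp only [mul_assoc]
        _ = q * (p * q) * w ^ 2 := by rw [wq.eq]; simp only [mul_assoc]
        _ = q * (q * p * w ^ 2) * w ^ 2 := by rw [hpq]
        _ = q ^ 2 * p * (w ^ 2 * w ^ 2) := by rw [pow_two q]; simp only [mul_assoc]
        _ = q ^ 2 * p * w ^ 4 := by rw [← pow_add]
    rw [← h1.eq] at h3
    exact (mul_eq_left.mp h3.symm)
  -- every element of `N0` has fourth power `1`
  have form : ∀ x ∈ N0 s a b, (∃ i j k : ℤ, x = p ^ i * q ^ j * w ^ k) ∨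
      (∃ i j k : ℤ, x = s * (p ^ i * q ^ j * w ^ k)) := by
    let P : G → Prop := fun x => (∃ i j k : ℤ, x = p ^ i * q ^ j * w ^ k) ∨
      (∃ i j k : ℤ, x = s * (p ^ i * q ^ j * w ^ k))
    have wp := wc p mp
    have wq := wc q mq
    have ws := wc s m0
    have Ls : ∀ x, P x → P (s * x) := by
      rintro x (⟨i, j, k, rfl⟩ | ⟨i, j, k, rfl⟩)
      · exact Or.inr ⟨i, j, k, rfl⟩
      · exact Or.inl ⟨i, j, k, canc hs _⟩
    have sp : p * s = s * p⁻¹ := by rw [← sps]; simp only [mul_assoc]; rw [canc hs]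
    have sq' : q * s = s * q⁻¹ := by rw [← sqs]; simp only [mul_assoc]; rw [canc hs]
    have Lp : ∀ x, P x → P (p * x) := by
      rintro x (⟨i, j, k, rfl⟩ | ⟨i, j, k, rfl⟩)
      · refine Or.inl ⟨1 + i, j, k, ?_⟩
        rw [zpow_add, zpow_one]; simp only [mul_assoc]
      · refine Or.inr ⟨-1 + i, j, k, ?_⟩
        rw [← mul_assoc p s, sp, zpow_add, zpow_neg_one]; simp only [mul_assoc]
    have qe : ∀ i j k : ℤ, ∀ e : ℤ, q ^ e * (p ^ i * q ^ j * w ^ k) =
        p ^ i * q ^ (e + j) * w ^ (-(2 * i * e) + k) := by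
      intro i j k e
      have h := pq_comm wp wq hpq i e
      calc q ^ e * (p ^ i * q ^ j * w ^ k) = (q ^ e * p ^ i) * q ^ j * w ^ k := by simp only [mul_assoc]
        _ = p ^ i * q ^ e * (w ^ (-(2 * i * e)) * q ^ j) * w ^ k := by rw [h]; simp only [mul_assoc]
        _ = p ^ i * (q ^ e * q ^ j) * (w ^ (-(2 * i * e)) * w ^ k) := by
            rw [((wq.zpow_left (-(2 * i * e))).zpow_right j).eq]; simp only [mul_assoc]
        _ = _ := by rw [← zpow_add, ← zpow_add]
    have Lq : ∀ x, P x → P (q * x) := by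
      rintro x (⟨i, j, k, rfl⟩ | ⟨i, j, k, rfl⟩)
      · have h := qe i j k 1
        rw [zpow_one] at h
        exact Or.inl ⟨_, _, _, h⟩
      · have h := qe i j k (-1)
        rw [zpow_neg_one] at h
        refine Or.inr ⟨i, -1 + j, -(2 * i * -1) + k, ?_⟩
        rw [← mul_assoc q s, sq', mul_assoc s, h]
    have Lw : ∀ x, P x → P (w * x) := by
      have h : ∀ i j k : ℤ, w * (p ^ i * q ^ j * w ^ k) = p ^ i * q ^ j * w ^ (1 + k) := by
        intro i j k
        have hc : Commute w (p ^ i * q ^ j) := (wp.zpow_right i).mul_right (wq.zpow_right j)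
        rw [← mul_assoc, hc.eq, mul_assoc, zpow_add, zpow_one]
      rintro x (⟨i, j, k, rfl⟩ | ⟨i, j, k, rfl⟩)
      · exact Or.inl ⟨_, _, _, h i j k⟩
      · refine Or.inr ⟨i, j, 1 + k, ?_⟩
        rw [← mul_assoc w s, ws.eq, mul_assoc, h]
    have Lf1 : ∀ x, P x → P (f1 * x) := by
      intro x hx
      have e : f1 * x = s * (p * x) := by rw [hp]; simp only [mul_assoc]; rw [canc hs]
      rw [e]; exact Ls _ (Lp _ hx)
    have Lf2 : ∀ x, P x → P (f2 * x) := by
      intro x hx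
      have e : f2 * x = s * (q * x) := by rw [hq]; simp only [mul_assoc]; rw [canc hs]
      rw [e]; exact Ls _ (Lq _ hx)
    have Lf3 : ∀ x, P x → P (f3 * x) := by
      intro x hx
      rw [ef3]
      have e : w * (p * f2) * x = w * (p * (f2 * x)) := by simp only [mul_assoc]
      rw [e]; exact Lw _ (Lp _ (Lf2 _ hx))
    have Lf : ∀ k : ℤ, ∀ x, P x → P (ff s (a * b) k * x) := by
      intro k x hx
      have o4 : (a * b) ^ (4 : ℤ) = 1 := by exact_mod_cast hab4
      have per : ∀ m r : ℤ, ff s (a * b) (4 * m + r) = ff s (a * b) r := by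
        intro m r
        unfold ff
        have e1 : (a * b) ^ (4 * m + r) = (a * b) ^ r := by
          rw [zpow_add, zpow_mul, o4, one_zpow, one_mul]
        have e2 : (a * b) ^ (-(4 * m + r)) = (a * b) ^ (-r) := by
          rw [zpow_neg, e1, zpow_neg]
        rw [e1, e2]
      have hk : k = 4 * (k / 4) + k % 4 := (Int.mul_ediv_add_emod k 4).symm
      have h0 : 0 ≤ k % 4 := Int.emod_nonneg _ (by norm_num)
      have h4 : k % 4 < 4 := Int.emod_lt_of_pos _ (by norm_num)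
      rw [hk, per]
      generalize k % 4 = r at h0 h4
      have hr : r = 0 ∨ r = 1 ∨ r = 2 ∨ r = 3 := by omega
      rcases hr with rfl | rfl | rfl | rfl
      · rw [ff_zero]; exact Ls _ hx
      · exact Lf1 _ hx
      · exact Lf2 _ hx
      · exact Lf3 _ hx
    intro x hx
    refine closure_induction_left (p := fun x _ => P x) ?_ ?_ ?_ hx
    · exact Or.inl ⟨0, 0, 0, by simp⟩
    · rintro _ ⟨k, rfl⟩ y _ hy
      exact Lf k y hy
    · rintro _ ⟨k, rfl⟩ y _ hy
      rw [inv_eq (ff_sq hs k)]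
      exact Lf k y hy
  have exp4 : ∀ x ∈ N0 s a b, x ^ 4 = 1 := by
    intro x hx
    rcases form x hx with ⟨i, j, k, rfl⟩ | ⟨i, j, k, rfl⟩
    · exact four_even (wc p mp) (wc q mq) hpq hp4 hq4 hw4 i j k
    · exact four_odd hs (wc p mp) (wc q mq) (wc s m0) hpq hw4 sps sqs i j k
  exact exp4

/-- `(s s^g)⁴ = 1` for `g ∈ ⟨a, b, s⟩` -/
theorem S_four (hG : V5 G) {g : G} (hg : g ∈ closure ({a, b, s} : Set G)) :
    (s * (g * s * g⁻¹)) ^ 4 = 1 := by
  have h0 : g * s * g⁻¹ ∈ N0 s a b ∨ g * s * g⁻¹ ∈ N1 s a b := by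
    rcases conj_dich hE hs hS ha hb hg with ⟨h, _⟩ | ⟨h, _⟩
    · exact Or.inl (h s (s_mem_N0 s a b))
    · exact Or.inr (h s (s_mem_N0 s a b))
  rcases h0 with h | h
  · exact v5_exp4 hE hs hS ha hb hG _ (mul_mem (s_mem_N0 s a b) h)
  · have hc := N_comm hE hs hS ha hb (s_mem_N0 s a b) h
    have h2 : (s * (g * s * g⁻¹)) ^ 2 = 1 := by
      rw [hc.mul_pow]
      have e : (g * s * g⁻¹) ^ 2 = g * (s * s) * g⁻¹ := by
        rw [pow_two]; group
      rw [e, pow_two, hs]
      group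
    rw [show 4 = 2 * 2 from rfl, pow_mul, h2, one_pow]

/-- in a group generated by `a, b, s` the set `E ∪ s^G` is a `DLaw` set -/
theorem dlaw_S (hG : V5 G) (hgen : closure ({a, b, s} : Set G) = ⊤) :
    DLaw (E ∪ {x | ∃ g : G, x = g * s * g⁻¹}) := by
  have sq : ∀ g : G, g * s * g⁻¹ * (g * s * g⁻¹) = 1 := by
    intro g
    have e : g * s * g⁻¹ * (g * s * g⁻¹) = g * (s * s) * g⁻¹ := by group
    rw [e, hs]; group
  have hse : ∀ g : G, ∀ e ∈ E, (g * s * g⁻¹ * e) ^ 4 = 1 := by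
    intro g e he
    have h1 := hS _ (by simpa using hE.conj g⁻¹ e he)
    have h2 : (g * s * g⁻¹ * e) ^ 4 = g * (s * (g⁻¹ * e * g)) ^ 4 * g⁻¹ := by
      simp only [pow_succ, pow_zero, one_mul]; group
    rw [h2, h1]; group
  refine ⟨Or.inl hE.one, ?_, ?_, ?_⟩
  · rintro x (hx | ⟨g, rfl⟩)
    · exact hE.inv x hx
    · exact sq g
  · rintro h x (hx | ⟨g, rfl⟩)
    · exact Or.inl (hE.conj h x hx)
    · exact Or.inr ⟨h * g, by group⟩
  · rintro x (hx | ⟨g, rfl⟩) y (hy | ⟨k, rfl⟩)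
    · exact hE.four x hx y hy
    · have h1 := hse k x hx
      have h2 : (x * (k * s * k⁻¹)) ^ 4 = (k * s * k⁻¹) * (k * s * k⁻¹ * x) ^ 4 * (k * s * k⁻¹)⁻¹ := by
        have hx2 := hE.inv x hx
        simp only [pow_succ, pow_zero, one_mul]
        have hk := sq k
        generalize k * s * k⁻¹ = t at hk ⊢
        have ht : t⁻¹ = t := inv_eq_of_mul_eq_one_right hk
        rw [ht]
        simp only [← mul_assoc]
        simp only [hk, one_mul]
      rw [h1] at h2
      have h3 : (x * (k * s * k⁻¹)) ^ 4 = 1 := by rw [h2]; group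
      exact four_of_pow h3
    · exact four_of_pow (hse g y hy)
    · have h1 := S_four hE hs hS ha hb hG (g := g⁻¹ * k) (by rw [hgen]; exact mem_top _)
      have h2 : (g * s * g⁻¹ * (k * s * k⁻¹)) ^ 4 = g * (s * (g⁻¹ * k * s * (g⁻¹ * k)⁻¹)) ^ 4 * g⁻¹ := by
        simp only [pow_succ, pow_zero, one_mul]; group
      rw [h1] at h2
      exact four_of_pow (by rw [h2]; group)

end S

/-- groups without section `P128` satisfy the hereditary law `v = 1` -/
theorem v5_of_noP128 {G : Type u} [Group G] (hG : NoP128 G) : V5 G := by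
  intro H K _ E hE a ha b hb c hc
  have hP := ((hG.subgroup H).quotient K).path hE
  have haa := hE.inv a ha
  have h1 : b * a * b ∈ E := hE.conj' ha (hE.inv b hb)
  have h2 : Commute a (b * a * b) := comm_of_four haa (hE.inv b hb) (hE.four a ha b hb)
  have h3 := hP a ha _ h1 h2 c hc
  have e : c2 a b * c = a * (b * a * b) * c := by
    simp only [c2_def, mul_assoc]
  rw [e]
  exact h3

end Pool.Agent.Helper91.SV
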