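import Pool.Agent.Helper91.SV.K0
import Pool.Agent.Helper91.SV.SLet
import Pool.Agent.Helper94.SV.TL

/-!
# Step K0 in groups without section `P128`
-/

set_option autoImplicit false

open Subgroup

namespace Pool.Agent.Helper91.SV

open Pool.Agent.Helper46.SV (kk cj ww omg cc cj_sq cj_cj cj_mul cj_kk inv_of commute_iff_cj cj_comm
  comm_of_kk mem_three mem_norm pow_cases dl_of)
open Pool.Agent.Helper46.SV.TE (Law DL ek_left ek_right ek_sq ek_comm abc_four omg_sq omg_cyc omg_comm
  ww_comm_self ww_comm_left ww_comm_right ww_sq ej)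
open Pool.Agent.Helper94.SV.Frame (DLaw MaxLaw exists_max)
open Pool.Agent.Helper94.SV.K6 (NoP128)
open Pool.Agent.Helper94.SV.TL (tl law_of)
open Pool.Agent.Helper89.SV (closed_of_path)

universe u

/-- core of K0: the group is generated by `c, d, r` with `r² = u` -/
theorem k0p_core {G : Type u} [Group G] (hS : NoP128 G) {E : Set G} (hE : DLaw E) {c d r u : G}
    (hc : c ∈ E) (hd : d ∈ E) (hgen : closure ({c, d, r} : Set G) = ⊤) (hrr : r * r = u)
    (huu : u * u = 1) (huc : Commute u c) (hvc' : Commute (d * u * d) c)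
    (hvr' : Commute (d * u * d) r) (hsd : (c * r) ^ 4 = u)
    (hrE : ∀ e ∈ E, (r * e) ^ 4 ∈ closure ({u, d * u * d, 1} : Set G))
    (hL4 : (c * (d * r * d)) ^ 4 = 1 ∨ (c * (d * r * d)) ^ 4 = d * u * d) : Commute u d := by
  have hD := dl_of hE
  have hcc := hE.inv c hc
  have hdd := hE.inv d hd
  obtain ⟨v, hv⟩ : ∃ v, v = cj u d := ⟨_, rfl⟩
  have hdu : d * u * d = v := hv.symm
  rw [hdu] at hvc' hvr' hL4
  have hvc := hvc'
  have hvr := hvr'
  have hvv : v * v = 1 := by rw [hv]; exact cj_sq huu hdd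
  have hur : Commute u r := by rw [← hrr]; exact (Commute.refl r).mul_left (Commute.refl r)
  have huv : Commute u v := by rw [← hrr]; exact (hvr.mul_right hvr).symm
  have hdv : d * v * d = u := by rw [hv]; exact cj_cj hdd
  by_contra hne
  have hne' : u ≠ v := by
    intro h1
    apply hne
    rw [commute_iff_cj hdd]
    rw [← hv]
    exact h1.symm
  have hu1 : u ≠ 1 := by
    intro h1
    apply hne'
    rw [h1] at hdu
    rw [h1, ← hdu, mul_one, hdd]
  have hgE : (r * d)⁻¹ * d * (r * d) ∈ E := by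
    have h1 := hE.conj (r * d)⁻¹ d hd
    rwa [inv_inv] at h1
  have D : Dat c r d u v := ⟨hcc, hdd, hrr, huu, hv, huc, hvc, hvr, hsd, hD.four c hc d hd,
    hD.four c hc _ hgE⟩
  -- the subgroup `L = {1, u, v, u v}`
  obtain ⟨L, hL⟩ : ∃ L : Subgroup G, L = closure {u, v, 1} := ⟨_, rfl⟩
  rw [hdu, ← hL] at hrE
  have huL : u ∈ L := by rw [hL]; exact subset_closure (by simp)
  have hvL : v ∈ L := by rw [hL]; exact subset_closure (by simp)
  have h1L : (1 : G) ∈ L := one_mem L
  have hLform : ∀ ζ ∈ L, ∃ i j : ℕ, ζ = u ^ i * v ^ j := by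
    intro ζ hζ
    rw [hL] at hζ
    obtain ⟨i, j, k, h1⟩ := mem_three huv (Commute.one_right u) (Commute.one_right v) huu hvv
      (mul_one 1) hζ
    exact ⟨i, j, by rw [h1, one_pow, mul_one]⟩
  have hLcomm : ∀ ζ ∈ L, ∀ x, Commute u x → Commute v x → Commute ζ x := by
    intro ζ hζ x h1 h2
    obtain ⟨i, j, rfl⟩ := hLform ζ hζ
    exact (h1.pow_left i).mul_left (h2.pow_left j)
  have hLc : ∀ ζ ∈ L, Commute ζ c := fun ζ hζ => hLcomm ζ hζ c huc hvc
  have hLr : ∀ ζ ∈ L, Commute ζ r := fun ζ hζ => hLcomm ζ hζ r hur hvr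
  have hLo : ∀ ζ ∈ L, Commute ζ (d * c * d) := fun ζ hζ => hLcomm ζ hζ _ D.uo D.vo
  have hLsq : ∀ ζ ∈ L, ζ * ζ = 1 := by
    intro ζ hζ
    obtain ⟨i, j, rfl⟩ := hLform ζ hζ
    have h1 : Commute (u ^ i) (v ^ j) := (huv.pow_left i).pow_right j
    rw [← pow_two, h1.mul_pow, ← pow_mul, ← pow_mul, mul_comm i, mul_comm j, pow_mul, pow_mul, pow_two,
      pow_two, huu, hvv, one_pow, one_pow, mul_one]
  have hLn : L.Normal := by
    have hcom : ∀ x, Commute u x → Commute v x → x ∈ normalizer (L : Set G) := by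
      intro x h1 h2
      refine mem_norm hL ?_ ?_
      · rintro y (rfl | rfl | rfl)
        · rw [← h1.eq, mul_inv_cancel_right]; exact huL
        · rw [← h2.eq, mul_inv_cancel_right]; exact hvL
        · rw [mul_one, mul_inv_cancel]; exact h1L
      · rintro y (rfl | rfl | rfl)
        · rw [mul_assoc, h1.eq, inv_mul_cancel_left]; exact huL
        · rw [mul_assoc, h2.eq, inv_mul_cancel_left]; exact hvL
        · rw [mul_one, inv_mul_cancel]; exact h1L
    have hdn : d ∈ normalizer (L : Set G) := by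
      refine mem_norm hL ?_ ?_
      · rintro y (rfl | rfl | rfl)
        · rw [inv_of hdd, hdu]; exact hvL
        · rw [inv_of hdd, hdv]; exact huL
        · rw [mul_one, mul_inv_cancel]; exact h1L
      · rintro y (rfl | rfl | rfl)
        · rw [inv_of hdd, hdu]; exact hvL
        · rw [inv_of hdd, hdv]; exact huL
        · rw [mul_one, inv_mul_cancel]; exact h1L
    have htop : (⊤ : Subgroup G) ≤ normalizer (L : Set G) := by
      rw [← hgen, closure_le]
      rintro x (rfl | rfl | rfl)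
      · exact hcom _ huc hvc
      · exact hdn
      · exact hcom _ hur hvr
    refine ⟨fun n hn g => ?_⟩
    exact (mem_normalizer_iff.mp (htop (mem_top g)) n).mp hn
  -- the quotient
  have hS' : NoP128 (G ⧸ L) := hS.quotient L
  obtain ⟨f, hf⟩ : ∃ f : G →* G ⧸ L, f = QuotientGroup.mk' L := ⟨_, rfl⟩
  have hfs : Function.Surjective f := by rw [hf]; exact QuotientGroup.mk'_surjective L
  have hker : ∀ x, f x = 1 ↔ x ∈ L := by
    intro x
    rw [hf]
    exact QuotientGroup.eq_one_iff x
  have heq : ∀ x y, f x = f y → ∃ ζ ∈ L, y = x * ζ := by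
    intro x y hxy
    refine ⟨x⁻¹ * y, ?_, (mul_inv_cancel_left x y).symm⟩
    rw [← hker, map_mul, map_inv, hxy, inv_mul_cancel]
  have hEf := hE.image f hfs
  have hfr : f r * f r = 1 := by
    rw [← map_mul, hrr, hker]
    exact huL
  have hrS : ∀ e ∈ f '' E, (f r * e) ^ 4 = 1 := by
    rintro _ ⟨e, he, rfl⟩
    rw [← map_mul, ← map_pow, hker]
    exact hrE e he
  have hgen' : closure ({f c, f d, f r} : Set (G ⧸ L)) = ⊤ := by
    rw [eq_top_iff]
    rintro x -
    obtain ⟨y, rfl⟩ := hfs x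
    have h1 : y ∈ closure ({c, d, r} : Set G) := by rw [hgen]; exact mem_top y
    have h2 : f y ∈ (closure ({c, d, r} : Set G)).map f := mem_map_of_mem f h1
    rw [MonoidHom.map_closure] at h2
    refine closure_mono ?_ h2
    rintro _ ⟨z, (rfl | rfl | rfl), rfl⟩ <;> simp
  have hED := dlaw_S hEf hfr hrS ⟨c, hc, rfl⟩ ⟨d, hd, rfl⟩ (v5_of_noP128 hS') hgen'
  obtain ⟨F, hEF, hF, hFmax⟩ := exists_max hED
  have hFm : MaxLaw F := ⟨hF, hFmax⟩
  have hFC := closed_of_path hFm (hS'.path hF)
  have hFl := law_of hF hFC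
  have hmc : f c ∈ F := hEF (Or.inl ⟨c, hc, rfl⟩)
  have hmd : f d ∈ F := hEF (Or.inl ⟨d, hd, rfl⟩)
  have hmr : f r ∈ F := hEF (Or.inr ⟨1, by group⟩)
  have hcc' := hF.inv _ hmc
  have hrr' := hF.inv _ hmr
  have hdd' := hF.inv _ hmd
  -- `ω`
  obtain ⟨ω, hω⟩ : ∃ ω, ω = (c * r * d) ^ 4 := ⟨_, rfl⟩
  have hfω : f ω = omg (f c) (f r) (f d) := by
    rw [hω, map_pow, map_mul, map_mul, abc_four hFl hmc hmr hmd]
  have hωd : Commute (f ω) (f d) := by rw [hfω]; exact omg_right hFl hmc hmr hmd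
  have hωr : Commute (f ω) (f r) := by rw [hfω]; exact omg_mid hFl hmc hmr hmd
  obtain ⟨ζ, hζL, hζ⟩ := heq ω (d * ω * d) (by
    rw [map_mul, map_mul]
    exact ((commute_iff_cj hdd').mp hωd).symm)
  have hrd : (r * d) ^ 4 ∈ L := hrE d hd
  -- `Λ`
  obtain ⟨Λ, hΛ⟩ : ∃ Λ, Λ = (c * (d * r * d)) ^ 4 := ⟨_, rfl⟩
  obtain ⟨t, ht⟩ : ∃ t, t = d * r * d := ⟨_, rfl⟩
  have htt : t * t = v := by
    rw [ht, ← hdu, ← hrr]
    simp only [mul_assoc, cc hdd]
  have hvt : Commute v t := by
    have h1 : v = t * t := htt.symm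
    rw [h1]
    exact ((Commute.refl t).mul_left (Commute.refl t))
  have hΛ' : Λ = 1 ∨ Λ = v := by
    rw [hΛ]
    exact hL4
  have hΛc : Commute (d * Λ * d) c := by
    rcases hΛ' with h1 | h1
    · rw [h1, mul_one, hdd]
      exact Commute.one_left c
    · rw [h1, hdv]
      exact huc
  have hmain : ω * c = c * Λ * u * ω := by
    rw [hω]
    refine D.beta hΛ hΛc (hLc _ hrd) (hLo _ hrd) (ζ := ζ) ?_ (hLc ζ hζL)
    rw [← hω]
    exact hζ
  -- `ω` does not commute with `c`
  have K1 : ¬ Commute ω c := by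
    intro h1
    have h2 : c * ω = c * Λ * u * ω := by rw [← h1.eq, hmain]
    have h3 : Λ * u = 1 := by
      have h4 : c * ω = c * (Λ * u) * ω := by rw [h2]; simp only [mul_assoc]
      have h5 := mul_right_cancel h4
      exact mul_eq_left.mp h5.symm
    rcases hΛ' with h4 | h4
    · rw [h4, one_mul] at h3
      exact hu1 h3
    · rw [h4] at h3
      apply hne'
      have h5 : v * u = u * u := by rw [h3, huu]
      exact (mul_right_cancel h5).symm
  have K2 : ∀ m : G, f m = f ω → ¬ Commute m c := by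
    intro m hm h1
    obtain ⟨ξ, hξ, h2⟩ := heq m ω hm
    apply K1
    rw [h2]
    exact h1.mul_left (hLc ξ hξ)
  have K3 : ∀ m : G, f m = f ω → ¬ Commute m (r⁻¹ * c * r) := by
    intro m hm h1
    apply K2 m hm
    have h2 : f m = f (r * m * r⁻¹) := by
      rw [map_mul, map_mul, map_inv, hm, ← hωr.eq, mul_inv_cancel_right]
    obtain ⟨ξ, hξ, h3⟩ := heq m _ h2
    have h4 := conj_comm' (g := r) h1
    have h5 : r * (r⁻¹ * c * r) * r⁻¹ = c := by group
    rw [h5, h3] at h4
    have h6 : m = m * ξ * ξ⁻¹ := by group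
    rw [h6]
    exact h4.mul_left (hLc ξ hξ).inv_left
  have hc1E : r⁻¹ * c * r ∈ E := by
    have h1 := hE.conj r⁻¹ c hc
    rwa [inv_inv] at h1
  have hfc1 : f (r⁻¹ * c * r) = cj (f c) (f r) := by
    rw [map_mul, map_mul, map_inv, inv_of hrr']
    rfl
  have hfo : f (d * c * d) = cj (f c) (f d) := by
    rw [map_mul, map_mul]
    rfl
  have hfkk : ∀ x y : G, f (kk x y) = kk (f x) (f y) := by
    intro x y
    simp only [kk, map_mul]
  have hoE : d * c * d ∈ E := hD.cj hc hdd
  -- the element `κ = [c^r, c^d]`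
  have K4 : f ω ≠ ww (f c) (f r) (f d) := by
    intro h1
    refine K3 (kk (r⁻¹ * c * r) (d * c * d)) ?_ (ek_left hD hc1E hoE)
    rw [hfkk, hfc1, hfo, h1]
    rfl
  have hww1 : ∀ x y z : G ⧸ L, x ∈ F → y ∈ F → z ∈ F → ww x y z * ww x y z = 1 := fun x y z hx hy hz =>
    ww_sq hFl hy hx hz
  have hom : omg (f c) (f r) (f d) = ww (f c) (f r) (f d) * ww (f r) (f d) (f c) * ww (f d) (f c) (f r) := rfl
  rcases tl hS' hF hFC hmc hmr hmd with h1 | ⟨h1, h2⟩ | ⟨h1, h2, h3 | h3⟩ | ⟨h1, h2, -⟩ | ⟨h1, h2, h3 | h3⟩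
  · refine K2 1 ?_ (Commute.one_left c)
    rw [map_one, hω, map_pow, map_mul, map_mul, h1]
  · apply K4
    rw [hfω, hom, ← h2, ← h1, hww1 _ _ _ hmc hmr hmd, one_mul]
  · -- `[c, r] = ω`
    have hω1 : f ω = kk (f c) (f r) := by rw [hfω, hom, h1, h2, h3, one_mul, one_mul]
    have h2 : Commute (kk (f c) (f r)) (f d) := by rw [← hω1]; exact hωd
    obtain ⟨y, hy⟩ : ∃ y, y = kk c r := ⟨_, rfl⟩
    rw [← hfkk, ← hy] at h2
    obtain ⟨ξ, hξ, h3⟩ := heq y (d * y * d) (by
      rw [map_mul, map_mul]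
      exact ((commute_iff_cj hdd').mp h2).symm)
    have hyy : y * y = u := by
      rw [← hsd, hy]
      simp only [kk, pow_succ, pow_zero, one_mul, mul_assoc]
    have hξy : Commute ξ y := by
      rw [hy]
      exact ((hLc ξ hξ).mul_right (hLr ξ hξ)).mul_right ((hLc ξ hξ).mul_right (hLr ξ hξ))
    apply hne'
    have h4 : d * y * d * (d * y * d) = v := by
      rw [← hdu, ← hyy]
      simp only [mul_assoc, cc hdd]
    have h5 : d * y * d * (d * y * d) = u := by
      rw [h3]
      calc y * ξ * (y * ξ) = y * (ξ * y) * ξ := by simp only [mul_assoc]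
        _ = y * (y * ξ) * ξ := by rw [hξy.eq]
        _ = (y * y) * (ξ * ξ) := by simp only [mul_assoc]
        _ = u := by rw [hyy, hLsq ξ hξ, mul_one]
    rw [← h4, h5]
  · -- `[c, r^d] = ω`
    obtain ⟨η, hη⟩ : ∃ η, η = kk c t := ⟨_, rfl⟩
    have hft : f t = cj (f r) (f d) := by
      rw [ht, map_mul, map_mul]
      rfl
    have hfη : f η = f ω := by
      rw [hη, hfkk, hft, hfω, hom, h1, h2, h3, one_mul, one_mul]
    obtain ⟨ξ, hξ, h3⟩ := heq η ω hfη
    have hηη : η * η = Λ := by
      rw [hη, hΛ, ← ht]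
      simp only [kk, pow_succ, pow_zero, one_mul, mul_assoc]
    have h4 : η * c * η = c := by
      have i1 := hvt.eq
      have i2 := hvc.eq
      rw [hη]
      calc c * t * (c * t) * c * (c * t * (c * t)) = c * t * c * (t * t) * c * t := by
            simp only [mul_assoc, cc hcc]
        _ = c * t * (c * v) * c * t := by rw [htt]; simp only [mul_assoc]
        _ = c * t * (v * c) * c * t := by rw [i2]
        _ = c * (t * v) * (c * c) * t := by simp only [mul_assoc]
        _ = c * (v * t) * t := by rw [hcc, mul_one, i1]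
        _ = c * v * (t * t) := by simp only [mul_assoc]
        _ = c := by rw [htt, mul_assoc, hvv, mul_one]
    have hΛΛ : Λ * Λ = 1 := by
      rcases hΛ' with h5 | h5
      · rw [h5, mul_one]
      · rw [h5, hvv]
    have h5 : η * c = c * Λ * η := by
      have i1 : η * c * η * (η * η * η) = η * c := by
        calc η * c * η * (η * η * η) = η * c * (η * η * (η * η)) := by simp only [mul_assoc]
          _ = η * c := by rw [hηη, hΛΛ, mul_one]
      rw [← i1, h4, hηη]
      simp only [mul_assoc]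
    have h6 : ω * c = c * Λ * ω := by
      have i1 := (hLc ξ hξ).eq
      rw [h3]
      calc η * ξ * c = η * c * ξ := by rw [mul_assoc, i1, mul_assoc]
        _ = c * Λ * (η * ξ) := by rw [h5, mul_assoc]
    have h7 : c * Λ * u * ω = c * Λ * ω := by rw [← hmain, h6]
    exact hu1 (mul_eq_left.mp (mul_right_cancel h7))
  · apply K4
    rw [hfω, hom, h1, h2, mul_one, mul_one]
  · refine K2 (kk d c) ?_ (ek_right hD hd hc)
    rw [hfkk, hfω, hom, h1, h2, h3, one_mul, mul_one]
  · refine K3 (kk d (r⁻¹ * c * r)) ?_ (ek_right hD hd hc1E)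
    rw [hfkk, hfc1, hfω, hom, h1, h2, h3, one_mul, mul_one]

/-- **K0 without section `P128`.** If `w_a = w_b = 1`, `w_c = [a, b] = u` and `u` commutes with `a^d`, `b^d`, `c^d`,
then `u` commutes with `d`. -/
theorem k0p {G : Type u} [Group G] (hS : NoP128 G) {E : Set G} (hE : DLaw E)
    (hC : ∀ a ∈ E, ∀ b ∈ E, Pool.Agent.Helper94.SV.Frame.c2 a b ∈ E) {a b c d : G}
    (ha : a ∈ E) (hb : b ∈ E) (hc : c ∈ E) (hd : d ∈ E) (e1 : ww a b c = 1) (e2 : ww b c a = 1)
    (e3 : ww c a b = kk a b) (h1 : Commute (kk a b) (cj a d)) (h2 : Commute (kk a b) (cj b d))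
    (h3 : Commute (kk a b) (cj c d)) : Commute (kk a b) d := by
  have hD := dl_of hE
  have hlaw := law_of hE hC
  have haa := hE.inv a ha
  have hbb := hE.inv b hb
  have hcc := hE.inv c hc
  have hdd := hE.inv d hd
  have g1 := cj_comm hdd h1
  have g2 := cj_comm hdd h2
  have g3 := cj_comm hdd h3
  rw [cj_cj hdd] at g1 g2 g3
  obtain ⟨u, hu⟩ : ∃ u, u = kk a b := ⟨_, rfl⟩
  obtain ⟨v, hv⟩ : ∃ v, v = cj u d := ⟨_, rfl⟩
  obtain ⟨r, hr⟩ : ∃ r, r = a * b := ⟨_, rfl⟩
  have huu : u * u = 1 := by rw [hu]; exact ek_sq hD ha hb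
  have hvv : v * v = 1 := by rw [hv]; exact cj_sq huu hdd
  have hua : Commute u a := by rw [hu]; exact ek_left hD ha hb
  have hub : Commute u b := by rw [hu]; exact ek_right hD ha hb
  have huc : Commute u c := by rw [hu, ← e3]; exact ww_comm_self hlaw ha hc hb
  have hrr : r * r = u := by rw [hr, hu]; rfl
  rw [← hu, ← hv] at g1 g2 g3
  have hva := g1
  have hvb := g2
  have hvc := g3
  have hur : Commute u r := by rw [hr]; exact hua.mul_right hub
  have hvr : Commute v r := by rw [hr]; exact hva.mul_right hvb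
  have hdu : d * u * d = v := hv.symm
  have hdv : d * v * d = u := by rw [hv]; exact cj_cj hdd
  rw [← hu]
  have hsd : (c * r) ^ 4 = u := by
    have i1 : (c * r) ^ 4 = c * (r * c) ^ 4 * c := by
      simp only [pow_succ, pow_zero, one_mul, mul_assoc, hcc, mul_one]
    have i2 : (a * b * c) ^ 4 = u := by
      rw [abc_four hlaw ha hb hc]
      show ww a b c * ww b c a * ww c a b = u
      rw [e1, e2, e3, one_mul, one_mul, hu]
    rw [i1, hr, i2, ← huc.eq, mul_assoc, hcc, mul_one]
  obtain ⟨L, hL⟩ : ∃ L : Subgroup G, L = closure {u, v, 1} := ⟨_, rfl⟩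
  have huL : u ∈ L := by rw [hL]; exact subset_closure (by simp)
  have hvL : v ∈ L := by rw [hL]; exact subset_closure (by simp)
  have hcen : ∀ x, Commute u x → Commute v x → ∀ n ∈ L, Commute n x := by
    intro x i1 i2 n hn
    have i3 : L ≤ centralizer {x} := by
      rw [hL, closure_le]
      rintro y (rfl | rfl | rfl)
      · exact mem_centralizer_singleton_iff.mpr i1.eq
      · exact mem_centralizer_singleton_iff.mpr i2.eq
      · exact one_mem _
    exact mem_centralizer_singleton_iff.mp (i3 hn)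
  obtain ⟨K, hK⟩ : ∃ K : Subgroup G, K = closure {c, d, r} := ⟨_, rfl⟩
  have hcK : c ∈ K := by rw [hK]; exact subset_closure (by simp)
  have hdK : d ∈ K := by rw [hK]; exact subset_closure (by simp)
  have hrK : r ∈ K := by rw [hK]; exact subset_closure (by simp)
  have hKn : K ≤ normalizer (L : Set G) := by
    have hcom : ∀ x, Commute u x → Commute v x → x ∈ normalizer (L : Set G) := by
      intro x i1 i2
      rw [mem_normalizer_iff]
      intro n
      constructor
      · intro hn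
        rw [← (hcen x i1 i2 n hn).eq, mul_inv_cancel_right]
        exact hn
      · intro hn
        have i3 := (hcen x i1 i2 _ hn).eq
        have i4 : n = x * n * x⁻¹ := by
          have i5 : x * n = x * n * x⁻¹ * x := by group
          rw [i3] at i5
          exact mul_left_cancel i5
        rw [i4]
        exact hn
    rw [hK, closure_le]
    rintro x (rfl | rfl | rfl)
    · exact hcom _ huc hvc
    · refine mem_norm hL ?_ ?_
      · rintro y (rfl | rfl | rfl)
        · rw [inv_of hdd, hdu]; exact hvL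
        · rw [inv_of hdd, hdv]; exact huL
        · rw [mul_one, mul_inv_cancel]; exact one_mem _
      · rintro y (rfl | rfl | rfl)
        · rw [inv_of hdd, hdu]; exact hvL
        · rw [inv_of hdd, hdv]; exact huL
        · rw [mul_one, inv_mul_cancel]; exact one_mem _
    · exact hcom _ hur hvr
  have hrE : ∀ e ∈ E, e ∈ K → (r * e) ^ 4 ∈ L := by
    intro e he heK
    rw [hr]
    refine hS.mem hE ha hb he L ?_ ?_ ?_ ?_
    · intro n hn
      rw [← (hcen a hua hva n hn).eq, mul_assoc, haa, mul_one]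
      exact hn
    · intro n hn
      rw [← (hcen b hub hvb n hn).eq, mul_assoc, hbb, mul_one]
      exact hn
    · intro n hn
      have i1 := (mem_normalizer_iff.mp (hKn heK) n).mp hn
      rwa [inv_of (hE.inv e he)] at i1
    · have i1 : Pool.Agent.Helper94.SV.Frame.c2 a b = u := by
        rw [hu]
        rfl
      rw [i1]
      exact huL
  have hL4 : (c * (d * r * d)) ^ 4 = 1 ∨ (c * (d * r * d)) ^ 4 = v := by
    have ha' := ej hD ha hd
    have hb' := ej hD hb hd
    have hvk : v = kk (cj a d) (cj b d) := by rw [hv, hu, cj_kk hdd]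
    have hva' : Commute v (cj a d) := by rw [hvk]; exact ek_left hD ha' hb'
    have hvb' : Commute v (cj b d) := by rw [hvk]; exact ek_right hD ha' hb'
    obtain ⟨M, hM⟩ : ∃ M : Subgroup G, M = closure {v, 1, 1} := ⟨_, rfl⟩
    have hvM : v ∈ M := by rw [hM]; exact subset_closure (by simp)
    have hcM : ∀ x, Commute v x → x * x = 1 → ∀ n ∈ M, x * n * x ∈ M := by
      intro x i1 i2 n hn
      have i3 : M ≤ centralizer {x} := by
        rw [hM, closure_le]
        rintro y (rfl | rfl | rfl)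
        · exact mem_centralizer_singleton_iff.mpr i1.eq
        · exact one_mem _
        · exact one_mem _
      have i4 : n * x = x * n := mem_centralizer_singleton_iff.mp (i3 hn)
      rw [← i4, mul_assoc, i2, mul_one]
      exact hn
    have i1 : (cj a d * cj b d * c) ^ 4 ∈ M := by
      refine hS.mem hE ha' hb' hc M (hcM _ hva' (hE.inv _ ha')) (hcM _ hvb' (hE.inv _ hb'))
        (hcM _ hvc hcc) ?_
      have i2 : Pool.Agent.Helper94.SV.Frame.c2 (cj a d) (cj b d) = v := by
        rw [hvk]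
        rfl
      rw [i2]
      exact hvM
    rw [hM] at i1
    obtain ⟨i, j, k, i2⟩ := mem_three (Commute.one_right v) (Commute.one_right v) (Commute.one_right 1)
      hvv (mul_one 1) (mul_one 1) i1
    rw [one_pow, one_pow, mul_one, mul_one] at i2
    have i3 : (c * (d * r * d)) ^ 4 = c * (cj a d * cj b d * c) ^ 4 * c := by
      have i4 : cj a d * cj b d = d * r * d := by
        rw [hr]
        simp only [cj, mul_assoc, cc hdd]
      rw [i4]
      simp only [pow_succ, pow_zero, one_mul, mul_assoc, hcc, mul_one]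
    rw [i3, i2]
    rcases pow_cases hvv i with i5 | i5
    · left
      rw [i5, mul_one, hcc]
    · right
      rw [i5, ← hvc.eq, mul_assoc, hcc, mul_one]
  have hEK : DLaw {x : K | (x : G) ∈ E} := by
    refine ⟨hE.one, ?_, ?_, ?_⟩
    · intro x hx
      ext
      exact hE.inv _ hx
    · intro g x hx
      exact hE.conj _ _ hx
    · intro x hx y hy
      ext
      exact hE.four _ hx _ hy
  have hgen : closure ({⟨c, hcK⟩, ⟨d, hdK⟩, ⟨r, hrK⟩} : Set K) = ⊤ := by
    rw [eq_top_iff]
    have hmap : (closure ({⟨c, hcK⟩, ⟨d, hdK⟩, ⟨r, hrK⟩} : Set K)).map K.subtype = K := by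
      rw [MonoidHom.map_closure]
      conv_rhs => rw [hK]
      congr 1
      ext x
      simp [eq_comm]
    rintro ⟨x, hx⟩ -
    rw [← hmap] at hx
    obtain ⟨y, hy, hyx⟩ := hx
    have : y = ⟨x, by rw [← hmap]; exact ⟨y, hy, hyx⟩⟩ := Subtype.ext hyx
    rw [← this]
    exact hy
  have huK : u ∈ K := by rw [← hrr]; exact mul_mem hrK hrK
  have hvK : v ∈ K := by rw [← hdu]; exact mul_mem (mul_mem hdK huK) hdK
  have hco : ∀ x y : K, Commute (x : G) (y : G) → Commute x y := by
    intro x y h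
    have h' : (x : G) * y = y * x := h
    show x * y = y * x
    ext
    exact h'
  have hLK : ∀ x : K, (x : G) ∈ L →
      x ∈ closure ({⟨u, huK⟩, ⟨d, hdK⟩ * ⟨u, huK⟩ * ⟨d, hdK⟩, 1} : Set K) := by
    intro x hx
    have hmap : (closure ({⟨u, huK⟩, ⟨d, hdK⟩ * ⟨u, huK⟩ * ⟨d, hdK⟩, 1} : Set K)).map K.subtype = L := by
      rw [MonoidHom.map_closure, hL]
      congr 1
      ext y
      simp [eq_comm, ← hdu]
    rw [← hmap] at hx
    obtain ⟨y, hy, hyx⟩ := hx
    have : y = x := Subtype.ext hyx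
    rw [← this]
    exact hy
  have key := k0p_core (hS.subgroup K) hEK (c := ⟨c, hcK⟩) (d := ⟨d, hdK⟩) (r := ⟨r, hrK⟩)
    (u := ⟨u, huK⟩) hc hd hgen (Subtype.ext hrr) (Subtype.ext huu) (hco _ _ huc)
    (hco _ _ (by
      show Commute (d * u * d) c
      rw [hdu]; exact hvc))
    (hco _ _ (by
      show Commute (d * u * d) r
      rw [hdu]; exact hvr))
    (Subtype.ext hsd)
    (fun e he => hLK _ (by
      show (r * (e : G)) ^ 4 ∈ L
      exact hrE e he e.2))
    (by
      rcases hL4 with i1 | i1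
      · left
        exact Subtype.ext i1
      · right
        refine Subtype.ext ?_
        show (c * (d * r * d)) ^ 4 = d * u * d
        rw [hdu]
        exact i1)
  have h' := congrArg (fun x : K => (x : G)) key.eq
  exact h'

end Pool.Agent.Helper91.SV
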